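import Pool.Agent.LibBHN.Mach

/-!
Bounded numbers of adaptive queries, nonadaptive queries.
-/

namespace Pool.Agent.LibDual85

open Function Pool.Agent.LibNexp Pool.Agent.LibBHN

/-- Polynomial time with `r(|x|)` adaptive queries to a language of the class `𝒞`. -/
def PQueryF (𝒞 : Set Lang) (r : ℕ → ℕ) : Set Lang :=
  {L | ∃ A ∈ 𝒞, ∃ f ∈ FPTime, ∃ G ∈ PTime, ∀ x,
    x ∈ L ↔ pair x (answers f A x (r x.length)) ∈ G}

open Classical in
/-- The answers to the first nonadaptive queries to `A`: the query number `i` on the input `x`
is `f ⟨x, 1^i⟩`. -/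
noncomputable def ttAnswers (f : List Bool → List Bool) (A : Lang) (x : List Bool) :
    ℕ → List Bool
  | 0 => []
  | i + 1 => ttAnswers f A x i ++ [decide (f (pair x (List.replicate i true)) ∈ A)]

/-- Polynomial time with polynomially many nonadaptive queries to a language of `𝒞`
(polynomial time truth-table reductions to languages of `𝒞`). -/
def PTt (𝒞 : Set Lang) : Set Lang :=
  {L | ∃ A ∈ 𝒞, ∃ f ∈ FPTime, ∃ G ∈ PTime, ∃ c : ℕ, ∀ x,
    x ∈ L ↔ pair x (ttAnswers f A x (x.length ^ c + c)) ∈ G}

open Classical in
/-- Answers of a general protocol: after the answers `β` the fact `⟨x, key β⟩ ∈ F` is asked. -/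
noncomputable def kans (F : Lang) (key : List Bool → List Bool) (x : List Bool) : ℕ → List Bool
  | 0 => []
  | i + 1 => kans F key x i ++ [decide (pair x (key (kans F key x i)) ∈ F)]

@[simp] theorem length_kans (F : Lang) (key : List Bool → List Bool) (x : List Bool) (i : ℕ) :
    (kans F key x i).length = i := by
  induction i with
  | zero => rfl
  | succ i ih => rw [kans, List.length_append, ih]; rfl

/-- All strings of ones. -/
abbrev ones (n : ℕ) : List Bool := List.replicate n true

end Pool.Agent.LibDual85
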