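import Pool.Agent.LibBHN.Str

/-! Several existential quantifiers at once. -/

namespace Pool.Agent.LibDual85

open Function Pool.Agent.LibNexp Pool.Agent.LibBHN

variable {O : List Bool → Bool}

theorem size_low_le {k m : ℕ} (e : Fin (k + m) → List Bool) :
    size (low (Nat.le_add_right k m) e) ≤ size e := by
  unfold size low
  rw [Fin.sum_univ_add]
  exact Nat.le_add_right _ _

/-- Existential quantification over `m` strings of polynomial length. -/
theorem nexp_exN {k m : ℕ} {R : (Fin k → List Bool) → (Fin m → List Bool) → Prop}
    (h : NEXP O fun e : Fin (k + m) → List Bool =>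
      R (low (Nat.le_add_right k m) e) (fun j => e (Fin.natAdd k j)))
    {g : ℕ → ℕ} (hg : PolyB g) (hgm : Monotone g)
    (hb : ∀ e z, R e z → ∀ j, (z j).length ≤ g (size e)) :
    NEXP O fun e : Fin k → List Bool => ∃ z, R e z := by
  induction m with
  | zero =>
    refine h.congr fun e => ?_
    constructor
    · intro h1
      exact ⟨_, h1⟩
    · rintro ⟨z, hz⟩
      have : z = fun j => e (Fin.natAdd k j) := funext fun j => j.elim0
      rw [this] at hz
      exact hz
  | succ m ih =>
    have h1 : NEXP O fun e : Fin (k + m) → List Bool => ∃ b,
        R (low (Nat.le_add_right k m) e)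
          (Fin.snoc (α := fun _ => List Bool) (fun j => e (Fin.natAdd k j)) b) := by
      refine nexp_ex (R := fun (e : Fin (k + m) → List Bool) b =>
        R (low (Nat.le_add_right k m) e)
          (Fin.snoc (α := fun _ => List Bool) (fun j => e (Fin.natAdd k j)) b)) ?_ hg ?_
      · refine h.congr fun e => ?_
        have h2 : (fun j => e (Fin.natAdd k j) : Fin (m + 1) → List Bool) =
            Fin.snoc (α := fun _ => List Bool)
              (fun j => low (Nat.le_add_right (k + m) 1) e (Fin.natAdd k j))
              (e (Fin.last (k + m))) := by
          funext j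
          refine Fin.lastCases ?_ (fun j => ?_) j
          · rw [Fin.snoc_last]
            congr 1
          · rw [Fin.snoc_castSucc]
            unfold low
            congr 1
        rw [h2]
        exact Iff.rfl
      · intro e b hR
        have := hb _ _ hR (Fin.last m)
        rw [Fin.snoc_last] at this
        exact this.trans (hgm (size_low_le e))
    have h2 := ih (R := fun e z => ∃ b, R e (Fin.snoc (α := fun _ => List Bool) z b)) h1 (by
      rintro e z ⟨b, hR⟩ j
      have := hb _ _ hR j.castSucc
      rw [Fin.snoc_castSucc] at this
      exact this)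
    refine h2.congr fun e => ?_
    constructor
    · rintro ⟨z, b, hR⟩
      exact ⟨_, hR⟩
    · rintro ⟨z, hz⟩
      refine ⟨fun j => z j.castSucc, z (Fin.last m), ?_⟩
      have : Fin.snoc (α := fun _ => List Bool) (fun j => z j.castSucc) (z (Fin.last m)) = z := by
        funext j
        refine Fin.lastCases ?_ (fun j => ?_) j
        · rw [Fin.snoc_last]
        · rw [Fin.snoc_castSucc]
      rw [this]
      exact hz

/-- The string consists of zeros. -/
theorem nexp_zeros {k : ℕ} (i : Fin k) :
    NEXP O fun e : Fin k → List Bool => e i = (e i).flatMap fun _ => [false] := by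
  refine ((nexp_subst (O := O) (fun _ => [false]) (fun _ => []) []).reindex
    ![i, i, i]).congr fun e => ?_
  simp only [Matrix.cons_val_zero, Matrix.cons_val_one, Matrix.cons_val]
  have : (e i).flatMap (fun _ => ([] : List Bool)) = [] := by simp
  rw [this, List.append_nil, List.append_nil]

/-- A fixed word between two strings. -/
theorem nexp_mid (w : List Bool) {k : ℕ} (i j l : Fin k) :
    NEXP O fun e : Fin k → List Bool => e l = e i ++ w ++ e j := by
  refine ((nexp_subst (O := O) (fun b => [b]) (fun b => [b]) w).reindex
    ![i, j, l]).congr fun e => ?_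
  simp

theorem nexp_pair {k : ℕ} (i j l : Fin k) :
    NEXP O fun e : Fin k → List Bool => e l = pair (e i) (e j) := by
  refine ((nexp_pairRel (O := O)).reindex ![i, j, l]).congr fun e => ?_
  simp

end Pool.Agent.LibDual85
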