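import Pool.Agent.LibBHN.MachGraph
import Pool.Agent.LibBHN.Univ
import Pool.Agent.LibDual85.Defs

/-! Task LD-1: reversal, unary strings, numbers as lengths. -/

namespace Pool.Agent.LibDual85

open Function Pool.Agent.LibNexp Pool.Agent.LibBHN

variable {O : List Bool → Bool}

private theorem ld1_rev2 : NEXP O fun e : Fin 2 → List Bool => e 1 = (e 0).reverse := by
  have hfm : ∀ l : List Bool, l.flatMap (fun b => [b]) = l := fun l => by simp
  refine nexp_of_prog (.seq (mv 0 2) (.seq (matching 1 2 fun b => [b]) (.empty 2)))
    (T := fun n => 4 * n + 3) (((PolyB.const 4).mul PolyB.id).add (PolyB.const 3)) ?_ ?_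
  · rintro e t σ' ⟨t1, t2, τ1, -, h1, t3, t4, τ2, -, h2, -, h3, rfl⟩
    obtain ⟨-, rfl⟩ := (run_mv (by norm_num)).1 h1
    obtain ⟨a1, a2, a3⟩ := matching_sound (by norm_num) h2
    have i2 : init e 2 = [] := by unfold init; simp
    rw [update_self, h3, List.append_nil, hfm, update_of_ne (by norm_num),
      update_of_ne (by norm_num), init0, init1, i2, List.append_nil] at a1
    exact a1.symm
  · intro e he
    have i2 : init e 2 = [] := by unfold init; simp
    have h1 := (run_mv (O := O) (r := 0) (d := 2) (t := 2 * (init e 0).length + 1) (by norm_num)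
      (σ := init e) (σ' := _)).2 ⟨rfl, rfl⟩
    set τ := update (update (init e) 0 []) 2 ((init e 0).reverse ++ init e 2) with hτ
    have hz : τ 2 = (τ 1).flatMap (fun b => [b]) ++ [] := by
      rw [hτ, update_self, hfm, update_of_ne (by norm_num), update_of_ne (by norm_num), init0, init1,
        i2, List.append_nil, List.append_nil, he]
    obtain ⟨t2, ht2, h2⟩ := matching_complete (O := O) (x := 1) (z := 2) (by norm_num) (K := 1)
      (fun b => le_rfl) hz
    have e0 := len_le_size e 0
    have e1 := len_le_size e 1
    have hτ1 : (τ 1).length = (e 1).length := by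
      rw [hτ, update_of_ne (by norm_num), update_of_ne (by norm_num), init1]
    refine ⟨(2 * (init e 0).length + 1) + (t2 + 1), _, ?_, _, _, _, rfl, h1, _, _, _, rfl, h2, rfl,
      by rw [update_self], rfl⟩
    rw [init0]
    rw [hτ1] at ht2
    omega

theorem nexp_rev {k : ℕ} (i j : Fin k) :
    NEXP O fun e : Fin k → List Bool => e j = (e i).reverse := by
  refine ((ld1_rev2 (O := O)).reindex ![i, j]).congr fun e => ?_
  simp

theorem nexp_ones {k : ℕ} (i j : Fin k) :
    NEXP O fun e : Fin k → List Bool => e j = ones (e i).length := by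
  refine ((nexp_subst (O := O) (fun _ => [true]) (fun _ => []) []).reindex ![i, i, j]).congr
    fun e => ?_
  have h1 : ∀ l : List Bool, l.flatMap (fun _ => [true]) = ones l.length := by
    intro l
    induction l with
    | nil => rfl
    | cons b l ih => rw [List.flatMap_cons, ih]; simp [ones, List.replicate_succ]
  have h2 : ∀ l : List Bool, l.flatMap (fun _ => ([] : List Bool)) = [] := by
    intro l
    induction l with
    | nil => rfl
    | cons b l ih => rw [List.flatMap_cons, ih]; rfl
  simp only [Matrix.cons_val_zero, Matrix.cons_val_one, Matrix.cons_val, h1, h2, List.append_nil]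

/-- Reachability through pairs. -/
private theorem ld1_reach2 {S : List Bool → List Bool → List Bool → List Bool → List Bool → List Bool → Prop}
    (hS : NEXP O fun e : Fin 8 → List Bool => S (e 0) (e 1) (e 4) (e 5) (e 6) (e 7))
    (hb : ∀ x y t u t' u', S x y t u t' u' → t'.length ≤ x.length ∧ u'.length ≤ y.length) :
    NEXP O fun e : Fin 4 → List Bool => Relation.ReflTransGen (fun a b => ∃ t u t' u',
      (a = pair t u ∧ b = pair t' u') ∧ S (e 0) (e 1) t u t' u') (e 2) (e 3) := by
  have h1 : NEXP O fun e : Fin 8 → List Bool =>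
      (e 2 = pair (e 4) (e 5) ∧ e 3 = pair (e 6) (e 7)) ∧ S (e 0) (e 1) (e 4) (e 5) (e 6) (e 7) :=
    ((nexp_pair3 4 5 2).and (nexp_pair3 6 7 3)).and hS
  have h2 : NEXP O fun e : Fin 6 → List Bool => ∃ t' u',
      (e 2 = pair (e 4) (e 5) ∧ e 3 = pair t' u') ∧ S (e 0) (e 1) (e 4) (e 5) t' u' := by
    refine nexp_ex2 (R := fun (e : Fin 6 → List Bool) t' u' =>
      (e 2 = pair (e 4) (e 5) ∧ e 3 = pair t' u') ∧ S (e 0) (e 1) (e 4) (e 5) t' u') h1
      (g := fun n => n) PolyB.id monotone_id ?_
    rintro e a b ⟨⟨-, h⟩, -⟩
    have := len_le_size e 3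
    rw [h, length_pair] at this
    constructor <;> omega
  have h3 : NEXP O fun e : Fin 4 → List Bool => ∃ t u t' u',
      (e 2 = pair t u ∧ e 3 = pair t' u') ∧ S (e 0) (e 1) t u t' u' := by
    refine nexp_ex2 (R := fun (e : Fin 4 → List Bool) t u => ∃ t' u',
      (e 2 = pair t u ∧ e 3 = pair t' u') ∧ S (e 0) (e 1) t u t' u') h2
      (g := fun n => n) PolyB.id monotone_id ?_
    rintro e a b ⟨t', u', ⟨h, -⟩, -⟩
    have := len_le_size e 2
    rw [h, length_pair] at this
    constructor <;> omega
  refine nexp_reach (k := 2) (S := fun e a b => ∃ t u t' u',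
      (a = pair t u ∧ b = pair t' u') ∧ S (e 0) (e 1) t u t' u') h3
    (g := fun n => 3 * n + 2) (((PolyB.const 3).mul PolyB.id).add (PolyB.const 2)) ?_ ?_
  · intro a b hab
    show 3 * a + 2 ≤ 3 * b + 2
    omega
  · rintro e a b ⟨t, u, t', u', ⟨-, rfl⟩, h⟩
    have h4 := hb _ _ _ _ _ _ h
    have h5 := len_le_size e 0
    have h6 := len_le_size e 1
    rw [length_pair]
    omega

/-- The step of a unary counter against a binary counter. -/
private def Ld1S (x y t u t' u' : List Bool) : Prop :=
  Suc t t' ∧ (u' = u ++ [true] ∨ u' = u ++ [false]) ∧ t'.length ≤ x.length ∧ u'.length ≤ y.length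

private theorem ld1_flat_false (x : List Bool) :
    x.flatMap (fun _ => [false, false]) = (List.replicate x.length false).flatMap fun b => [b, b] := by
  induction x with
  | nil => rfl
  | cons b x ih => rw [List.flatMap_cons, ih, List.length_cons, List.replicate_succ, List.flatMap_cons]

private theorem ld1_iff (x y : List Bool) : Relation.ReflTransGen (fun a b => ∃ t u t' u',
      (a = pair t u ∧ b = pair t' u') ∧ Ld1S x y t u t' u')
      (pair (List.replicate x.length false) []) (pair x y) ↔ val x = y.length := by
  constructor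
  · intro h
    have key : ∀ b, Relation.ReflTransGen (fun a b => ∃ t u t' u',
      (a = pair t u ∧ b = pair t' u') ∧ Ld1S x y t u t' u')
      (pair (List.replicate x.length false) []) b →
      ∃ t u, b = pair t u ∧ val t = u.length := by
      intro b hb
      induction hb with
      | refl =>
        refine ⟨_, _, rfl, ?_⟩
        have := val_false x.length []
        rw [List.append_nil] at this
        rw [this]
        simp [val]
      | tail _ hs ih =>
        obtain ⟨t, u, t', u', ⟨rfl, rfl⟩, hs⟩ := hs
        obtain ⟨t0, u0, h0, h1⟩ := ih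
        obtain ⟨rfl, rfl⟩ := pair_injective h0
        refine ⟨_, _, rfl, ?_⟩
        rw [hs.1.2, h1]
        rcases hs.2.1 with rfl | rfl <;> simp
    obtain ⟨t, u, h1, h2⟩ := key _ h
    obtain ⟨rfl, rfl⟩ := pair_injective h1
    exact h2
  · intro h
    have key : ∀ i ≤ y.length, Relation.ReflTransGen (fun a b => ∃ t u t' u',
      (a = pair t u ∧ b = pair t' u') ∧ Ld1S x y t u t' u')
      (pair (List.replicate x.length false) []) (pair (bits x.length i) (y.take i)) := by
      intro i
      induction i with
      | zero =>
        intro _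
        have : bits x.length 0 = List.replicate x.length false := by
          apply val_inj
          · simp
          · have h1 := val_false x.length []
            rw [List.append_nil] at h1
            rw [h1, val_bits (by positivity)]
            simp [val]
        rw [this, List.take_zero]
      | succ i ih =>
        intro hi
        refine (ih (by omega)).tail ⟨_, _, _, _, ⟨rfl, rfl⟩, ⟨?_, ?_⟩, ?_, ?_, ?_⟩
        · simp
        · have hlt := val_lt x
          rw [val_bits (by omega), val_bits (by omega)]
        · have h1 : y.take (i + 1) = y.take i ++ [y[i]] := by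
            rw [List.take_succ_eq_append_getElem]
          rw [h1]
          cases y[i]
          · right; rfl
          · left; rfl
        · simp
        · simp
    have h1 := key y.length le_rfl
    rw [List.take_length, ← h, bits_val] at h1
    exact h1

/-- The value of a binary number is the length of a string. -/
theorem nexp_valLen {k : ℕ} (i j : Fin k) :
    NEXP O fun e : Fin k → List Bool => val (e i) = (e j).length := by
  have h1 : NEXP O fun e : Fin 8 → List Bool => Ld1S (e 0) (e 1) (e 4) (e 5) (e 6) (e 7) :=
    (nexp_suc 4 6).and (((nexp_snoc true 5 7).or (nexp_snoc false 5 7)).and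
      ((nexp_lenLe 6 0).and (nexp_lenLe 7 1)))
  have h2 := ld1_reach2 h1 (fun x y t u t' u' h => ⟨h.2.2.1, h.2.2.2⟩)
  have h3 : NEXP O fun e : Fin 4 → List Bool =>
      e 2 = (e 0).flatMap (fun _ => [false, false]) ++ [true, false] ++ (e 0).flatMap (fun _ => []) := by
    refine ((nexp_subst (O := O) (fun _ => [false, false]) (fun _ => []) [true, false]).reindex
      ![0, 0, 2]).congr fun e => ?_
    simp
  have h4 : NEXP O fun e : Fin 2 → List Bool => ∃ s f : List Bool,
      (s = (e 0).flatMap (fun _ => [false, false]) ++ [true, false] ++ (e 0).flatMap (fun _ => []) ∧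
        f = pair (e 0) (e 1)) ∧ Relation.ReflTransGen (fun a b => ∃ t u t' u',
      (a = pair t u ∧ b = pair t' u') ∧ Ld1S (e 0) (e 1) t u t' u') s f := by
    refine nexp_ex2 (R := fun (e : Fin 2 → List Bool) s f =>
      (s = (e 0).flatMap (fun _ => [false, false]) ++ [true, false] ++ (e 0).flatMap (fun _ => []) ∧
        f = pair (e 0) (e 1)) ∧ Relation.ReflTransGen (fun a b => ∃ t u t' u',
      (a = pair t u ∧ b = pair t' u') ∧ Ld1S (e 0) (e 1) t u t' u') s f)
      ((h3.and (nexp_pair3 0 1 3)).and h2)
      (g := fun n => 3 * n + 2) (((PolyB.const 3).mul PolyB.id).add (PolyB.const 2)) ?_ ?_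
    · intro a b hab
      show 3 * a + 2 ≤ 3 * b + 2
      omega
    · rintro e a b ⟨⟨rfl, rfl⟩, -⟩
      have h5 := len_le_size e 0
      have h6 := len_le_size e 1
      rw [length_pair]
      simp
      constructor <;> omega
  refine (h4.reindex ![i, j]).congr fun e => ?_
  simp only [Matrix.cons_val_zero, Matrix.cons_val_one]
  rw [← ld1_iff (e i) (e j)]
  have h5 : ∀ l : List Bool, l.flatMap (fun _ => ([] : List Bool)) = [] := by
    intro l
    induction l with
    | nil => rfl
    | cons b l ih => rw [List.flatMap_cons, ih]; rfl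
  have h6 : ∀ x : List Bool, x.flatMap (fun _ => [false, false]) ++ [true, false] ++
      x.flatMap (fun _ => ([] : List Bool)) = pair (List.replicate x.length false) [] := by
    intro x
    rw [ld1_flat_false, h5]
    rfl
  constructor
  · rintro ⟨s, f, ⟨rfl, rfl⟩, h⟩
    rw [h6] at h
    exact h
  · intro h
    refine ⟨_, _, ⟨rfl, rfl⟩, ?_⟩
    rw [h6]
    exact h

end Pool.Agent.LibDual85
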