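import Pool.Agent.LibDual85.Ex
import Pool.Agent.LibDual85.Rev

/-! Binary search. -/

namespace Pool.Agent.LibDual85

open Function Pool.Agent.LibNexp Pool.Agent.LibBHN

variable {O : List Bool → Bool}

/-- The threshold asked after the answers `α` in a binary search for a number below `2 ^ l`. -/
def thr (l : ℕ) (α : List Bool) : List Bool :=
  List.replicate (l - 1 - α.length) false ++ [true] ++ α.reverse ++ [false]

theorem length_thr {l : ℕ} {α : List Bool} (h : α.length < l) : (thr l α).length = l + 1 := by
  unfold thr
  simp
  omega

theorem val_append_false (l : List Bool) : val (l ++ [false]) = val l := by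
  induction l with
  | nil => rfl
  | cons b l ih => simp only [List.cons_append, val, ih]

theorem val_thr {l : ℕ} {α : List Bool} :
    val (thr l α) = 2 ^ (l - 1 - α.length) * (2 * val α.reverse + 1) := by
  unfold thr
  rw [val_append_false, List.append_assoc, val_false]
  simp only [List.cons_append, List.nil_append, val, Bool.toNat_true]
  ring

/-- The answers determine the number. -/
theorem search {l N : ℕ} (hN : N < 2 ^ l) {a : ℕ → List Bool} (h0 : a 0 = [])
    (hs : ∀ i < l, a (i + 1) = a i ++ [decide (val (thr l (a i)) ≤ N)]) :
    ∀ i ≤ l, (a i).length = i ∧ val (a i).reverse = N / 2 ^ (l - i) := by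
  intro i
  induction i with
  | zero =>
    intro _
    rw [h0]
    refine ⟨rfl, ?_⟩
    rw [Nat.sub_zero, Nat.div_eq_of_lt hN]
    rfl
  | succ i ih =>
    intro hi
    obtain ⟨h1, h2⟩ := ih (by omega)
    rw [hs i (by omega)]
    refine ⟨by rw [List.length_append, h1]; rfl, ?_⟩
    rw [List.reverse_append]
    simp only [List.reverse_cons, List.reverse_nil, List.nil_append, List.cons_append, val]
    rw [val_thr, h1, h2]
    have e1 : l - i = (l - (i + 1)) + 1 := by omega
    have e2 : l - 1 - i = l - (i + 1) := by omega
    rw [e2, e1, pow_succ, ← Nat.div_div_eq_div_mul]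
    set d := 2 ^ (l - (i + 1)) with hd
    have hd0 : 0 < d := Nat.two_pow_pos _
    set q := N / d with hq
    have h3 : d * (2 * (q / 2) + 1) ≤ N ↔ 2 * (q / 2) + 1 ≤ q := by
      rw [hq, mul_comm, ← Nat.le_div_iff_mul_le hd0]
    rcases Nat.mod_two_eq_zero_or_one q with h4 | h4
    · have h5 : ¬ (d * (2 * (q / 2) + 1) ≤ N) := by rw [h3]; omega
      rw [decide_eq_false h5]
      simp
      omega
    · have h5 : d * (2 * (q / 2) + 1) ≤ N := by rw [h3]; omega
      rw [decide_eq_true h5]
      simp
      omega

/-- The graph of the threshold, for a length function whose graph is in the class. -/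
theorem nexp_thr {lam : ℕ → ℕ}
    (hlam : NEXP O fun e : Fin 2 → List Bool => (e 1).length = lam (e 0).length)
    (hlamp : PolyB lam) :
    NEXP O fun e : Fin 3 → List Bool => (e 1).length < lam (e 0).length ∧
      e 2 = thr (lam (e 0).length) (e 1) := by
  obtain ⟨c, hc⟩ := hlamp
  -- variables: x, α, t | u, r, z, s, t'
  have h1 : NEXP O fun e : Fin 8 → List Bool => (((e 3).length = lam (e 0).length ∧
      e 4 = (e 1).reverse) ∧ (e 5 = (e 5).flatMap (fun _ => [false]) ∧
      e 6 = e 5 ++ e 1)) ∧ ((e 3).length = 1 * (e 6).length + 1 ∧
      (e 7 = e 5 ++ [true] ++ e 4 ∧ e 2 = e 7 ++ [false])) := by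
    refine (((hlam.reindex ![0, 3]).congr fun e => ?_).and (nexp_rev 1 4)).and
      ((nexp_zeros 5).and (nexp_append 5 1 6)) |>.and ((nexp_lin 1 1 6 3).and
      ((nexp_mid [true] 5 4 7).and (nexp_snoc false 7 2)))
    simp
  refine (nexp_exN (k := 3) (m := 5) (R := fun e z => (((z 0).length = lam (e 0).length ∧
      z 1 = (e 1).reverse) ∧ (z 2 = (z 2).flatMap (fun _ => [false]) ∧
      z 3 = z 2 ++ e 1)) ∧ ((z 0).length = 1 * (z 3).length + 1 ∧
      (z 4 = z 2 ++ [true] ++ z 1 ∧ e 2 = z 4 ++ [false]))) h1
    (g := fun n => n ^ c + c + n) ((PolyB.id.comp_pow c).add PolyB.id)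
    (fun m n h => by
      have := Nat.pow_le_pow_left h c
      simp only
      omega) ?_).congr fun e => ?_
  · rintro e z ⟨⟨⟨a1, a2⟩, a3, a4⟩, a5, a6, a7⟩ j
    have l0 := len_le_size e 0
    have l1 := len_le_size e 1
    have l2 := len_le_size e 2
    have b1 : lam (e 0).length ≤ size e ^ c + c :=
      (hc _).trans (Nat.add_le_add_right (Nat.pow_le_pow_left l0 c) c)
    have b2 := congrArg List.length a2
    have b4 := congrArg List.length a4
    have b6 := congrArg List.length a6
    have b7 := congrArg List.length a7
    simp only [List.length_reverse, List.length_append, List.length_cons, List.length_nil] at b2 b4 b6 b7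
    show _ ≤ size e ^ c + c + size e
    fin_cases j
    · show (z 0).length ≤ _; omega
    · show (z 1).length ≤ _; omega
    · show (z 2).length ≤ _; omega
    · show (z 3).length ≤ _; omega
    · show (z 4).length ≤ _; omega
  · have hz : ∀ w : List Bool, w = w.flatMap (fun _ => [false]) →
        w = List.replicate w.length false := by
      intro w hw
      have : ∀ w : List Bool, w.flatMap (fun _ => [false]) = List.replicate w.length false := by
        intro w
        induction w with
        | nil => rfl
        | cons b w ih => simp [List.replicate_succ, ih]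
      rw [← this w]
      exact hw
    constructor
    · rintro ⟨z, ⟨⟨a1, a2⟩, a3, a4⟩, a5, a6, a7⟩
      have b4 := congrArg List.length a4
      rw [List.length_append] at b4
      refine ⟨by omega, ?_⟩
      rw [a7, a6, a2]
      unfold thr
      rw [hz _ a3]
      have : (z 2).length = lam (e 0).length - 1 - (e 1).length := by omega
      rw [this]
    · rintro ⟨a1, a2⟩
      refine ⟨![List.replicate (lam (e 0).length) true, (e 1).reverse,
        List.replicate (lam (e 0).length - 1 - (e 1).length) false,
        List.replicate (lam (e 0).length - 1 - (e 1).length) false ++ e 1,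
        List.replicate (lam (e 0).length - 1 - (e 1).length) false ++ [true] ++ (e 1).reverse],
        ⟨⟨?_, rfl⟩, ?_, rfl⟩, ?_, rfl, a2⟩
      · show (List.replicate (lam (e 0).length) true).length = _
        simp
      · show List.replicate (lam (e 0).length - 1 - (e 1).length) false =
          (List.replicate (lam (e 0).length - 1 - (e 1).length) false).flatMap fun _ => [false]
        generalize lam (e 0).length - 1 - (e 1).length = n
        induction n with
        | zero => rfl
        | succ n ih => rw [List.replicate_succ, List.flatMap_cons, ← ih]; rfl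
      · show (List.replicate (lam (e 0).length) true).length = 1 *
          (List.replicate (lam (e 0).length - 1 - (e 1).length) false ++ e 1).length + 1
        simp
        omega

end Pool.Agent.LibDual85
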