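import Pool.Agent.LibBHN.MachGraph
import Pool.Agent.LibBHN.PNexp
import Pool.Agent.LibBHN.Univ
import Pool.Agent.LibDual85.Defs

/-! Task LD-4: machines as protocols. -/

namespace Pool.Agent.LibDual85

open Function Pool.Agent.LibNexp Pool.Agent.LibBHN

variable {O : List Bool → Bool}

private theorem ld4_pre {f : List Bool → List Bool} (hf : f ∈ FPTime) {A : Lang}
    (hA : A ∈ NEXPLang O) : {u : List Bool | f u ∈ A} ∈ NEXPLang O := by
  obtain ⟨K, hK⟩ := fp_length hf
  have h0 : NEXP O fun e : Fin 2 → List Bool => e 1 = f (e 0) ∧ e 1 ∈ A :=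
    (nexp_fp hf).and (nexp_mem hA 1)
  have h1 := nexp_ex (R := fun (e : Fin 1 → List Bool) z => z = f (e 0) ∧ z ∈ A) h0
    (g := fun n => n ^ K + K) (PolyB.id.comp_pow K) (by
      rintro e z ⟨rfl, _⟩
      have h2 := hK (e 0)
      have := Nat.pow_le_pow_left (len_le_size e 0) K
      show _ ≤ size e ^ K + K
      omega)
  refine h1.congr fun e => ?_
  simp

theorem kprot_of_pqueryF {r : ℕ → ℕ} {L : Lang} (hL : L ∈ PQueryF (NEXPLang O) r) :
    ∃ F ∈ NEXPLang O, ∃ G : Lang, G ∈ NEXPLang O ∧ Gᶜ ∈ NEXPLang O ∧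
      ∀ x, x ∈ L ↔ pair x (kans F (fun β => β) x (r x.length)) ∈ G := by
  obtain ⟨A, hA, f, hf, G, hG, h⟩ := hL
  refine ⟨{u : List Bool | f u ∈ A}, ld4_pre hf hA, G, (nexp_ptime hG).1, (nexp_ptime hG).2,
    fun x => ?_⟩
  have key : ∀ i, kans {u : List Bool | f u ∈ A} (fun β => β) x i = answers f A x i := by
    intro i
    induction i with
    | zero => rfl
    | succ i ih =>
      rw [kans, answers, ih]
      rfl
  rw [key, h x]

theorem kprot_of_ptt {L : Lang} (hL : L ∈ PTt (NEXPLang O)) :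
    ∃ F ∈ NEXPLang O, ∃ G : Lang, G ∈ NEXPLang O ∧ Gᶜ ∈ NEXPLang O ∧ ∃ c : ℕ,
      ∀ x, x ∈ L ↔ pair x (kans F (fun β => ones β.length) x (x.length ^ c + c)) ∈ G := by
  obtain ⟨A, hA, f, hf, G, hG, c, h⟩ := hL
  refine ⟨{u : List Bool | f u ∈ A}, ld4_pre hf hA, G, (nexp_ptime hG).1, (nexp_ptime hG).2, c,
    fun x => ?_⟩
  have key : ∀ i, kans {u : List Bool | f u ∈ A} (fun β => ones β.length) x i =
      ttAnswers f A x i := by
    intro i
    induction i with
    | zero => rfl
    | succ i ih =>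
      rw [kans, ttAnswers, length_kans, ih]
      rfl
  rw [key, h x]

/-- Protocols with the last answer as output. -/
theorem pqueryF_of_protocol {D : Lang} (hD : D ∈ NEXPLang O) (r : ℕ → ℕ) :
    {x | (ans D x (r x.length + 1)).getLast? = some true} ∈
      PQueryF (NEXPLang O) fun n => r n + 1 := by
  refine ⟨D, hD, fun x => x, id_mem, _, last_mem, fun x => ?_⟩
  have key : ∀ i, answers (fun x => x) D x i = ans D x i := by
    intro i
    induction i with
    | zero => rfl
    | succ i ih => rw [answers, ans, ih]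
  show (ans D x (r x.length + 1)).getLast? = some true ↔
    (pair x (answers (fun x => x) D x (r x.length + 1))).getLast? = some true
  have h2 : ∀ (α : List Bool) (b : Bool), (pair x (α ++ [b])).getLast? = some b := by
    intro α b
    rw [pair, ← List.append_assoc, List.getLast?_concat]
  rw [key, ans, h2, List.getLast?_concat]

end Pool.Agent.LibDual85
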