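import Pool.Agent.LibBHN.MachGraph
import Pool.Agent.LibBHN.Univ
import Pool.Agent.LibDual85.Defs

/-! Task LD-2: logarithms of lengths. -/

namespace Pool.Agent.LibDual85

open Function Pool.Agent.LibNexp Pool.Agent.LibBHN

variable {O : List Bool → Bool}

/-- Reachability through pairs. -/
private theorem ld2_reach2 {S : List Bool → List Bool → List Bool → List Bool → List Bool → List Bool → Prop}
    (hS : NEXP O fun e : Fin 8 → List Bool => S (e 0) (e 1) (e 4) (e 5) (e 6) (e 7))
    (hb : ∀ x y t u t' u', S x y t u t' u' → t'.length ≤ x.length ∧ u'.length ≤ y.length) :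
    NEXP O fun e : Fin 4 → List Bool => Relation.ReflTransGen (fun a b => ∃ t u t' u',
      (a = pair t u ∧ b = pair t' u') ∧ S (e 0) (e 1) t u t' u') (e 2) (e 3) := by
  have h1 : NEXP O fun e : Fin 8 → List Bool =>
      (e 2 = pair (e 4) (e 5) ∧ e 3 = pair (e 6) (e 7)) ∧ S (e 0) (e 1) (e 4) (e 5) (e 6) (e 7) :=
    ((nexp_pair3 4 5 2).and (nexp_pair3 6 7 3)).and hS
  have h2 : NEXP O fun e : Fin 6 → List Bool => ∃ t' u',
      (e 2 = pair (e 4) (e 5) ∧ e 3 = pair t' u') ∧ S (e 0) (e 1) (e 4) (e 5) t' u' := by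
    refine nexp_ex2 (R := fun (e : Fin 6 → List Bool) t' u' =>
      (e 2 = pair (e 4) (e 5) ∧ e 3 = pair t' u') ∧ S (e 0) (e 1) (e 4) (e 5) t' u') h1
      (g := fun n => n) PolyB.id monotone_id ?_
    rintro e a b ⟨⟨-, h⟩, -⟩
    have := len_le_size e 3
    rw [h, length_pair] at this
    constructor <;> omega
  have h3 : NEXP O fun e : Fin 4 → List Bool => ∃ t u t' u',
      (e 2 = pair t u ∧ e 3 = pair t' u') ∧ S (e 0) (e 1) t u t' u' := by
    refine nexp_ex2 (R := fun (e : Fin 4 → List Bool) t u => ∃ t' u',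
      (e 2 = pair t u ∧ e 3 = pair t' u') ∧ S (e 0) (e 1) t u t' u') h2
      (g := fun n => n) PolyB.id monotone_id ?_
    rintro e a b ⟨t', u', ⟨h, -⟩, -⟩
    have := len_le_size e 2
    rw [h, length_pair] at this
    constructor <;> omega
  refine nexp_reach (k := 2) (S := fun e a b => ∃ t u t' u',
      (a = pair t u ∧ b = pair t' u') ∧ S (e 0) (e 1) t u t' u') h3
    (g := fun n => 3 * n + 2) (((PolyB.const 3).mul PolyB.id).add (PolyB.const 2)) ?_ ?_
  · intro a b hab
    show 3 * a + 2 ≤ 3 * b + 2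
    omega
  · rintro e a b ⟨t, u, t', u', ⟨-, rfl⟩, h⟩
    have h4 := hb _ _ _ _ _ _ h
    have h5 := len_le_size e 0
    have h6 := len_le_size e 1
    rw [length_pair]
    omega

/-- Doubling of the second component. -/
private def Ld2S (x y t u t' u' : List Bool) : Prop :=
  (t' = t ++ [true] ∧ u' = u ++ u) ∧ t'.length ≤ x.length ∧ u'.length ≤ y.length

private theorem ld2_iff (x y : List Bool) : Relation.ReflTransGen (fun a b => ∃ t u t' u',
      (a = pair t u ∧ b = pair t' u') ∧ Ld2S x y t u t' u')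
      (pair [] [true]) (pair (ones x.length) (ones y.length)) ↔ y.length = 2 ^ x.length := by
  constructor
  · intro h
    have key : ∀ b, Relation.ReflTransGen (fun a b => ∃ t u t' u',
      (a = pair t u ∧ b = pair t' u') ∧ Ld2S x y t u t' u')
      (pair [] [true]) b → ∃ t u, b = pair t u ∧ u.length = 2 ^ t.length := by
      intro b hb
      induction hb with
      | refl => exact ⟨_, _, rfl, by simp⟩
      | tail _ hs ih =>
        obtain ⟨t, u, t', u', ⟨rfl, rfl⟩, ⟨rfl, rfl⟩, -⟩ := hs
        obtain ⟨t0, u0, h0, h1⟩ := ih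
        obtain ⟨rfl, rfl⟩ := pair_injective h0
        refine ⟨_, _, rfl, ?_⟩
        rw [List.length_append, List.length_append, h1, List.length_singleton, pow_succ]
        ring
    obtain ⟨t, u, h1, h2⟩ := key _ h
    obtain ⟨rfl, rfl⟩ := pair_injective h1
    simpa using h2
  · intro h
    have key : ∀ i ≤ x.length, Relation.ReflTransGen (fun a b => ∃ t u t' u',
      (a = pair t u ∧ b = pair t' u') ∧ Ld2S x y t u t' u')
      (pair [] [true]) (pair (ones i) (ones (2 ^ i))) := by
      intro i
      induction i with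
      | zero => intro _; exact .refl
      | succ i ih =>
        intro hi
        refine (ih (by omega)).tail ⟨_, _, _, _, ⟨rfl, rfl⟩, ⟨⟨?_, ?_⟩, ?_, ?_⟩⟩
        · unfold ones
          rw [List.replicate_succ']
        · unfold ones
          rw [← List.replicate_add, pow_succ]
          congr 1
          ring
        · simpa using hi
        · rw [List.length_replicate, h]
          exact Nat.pow_le_pow_right (by norm_num) hi
    have h1 := key x.length le_rfl
    rw [← h] at h1
    exact h1

private theorem ld2_ones {k : ℕ} (i j : Fin k) :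
    NEXP O fun e : Fin k → List Bool => e j = ones (e i).length := by
  refine ((nexp_subst (O := O) (fun _ => [true]) (fun _ => []) []).reindex ![i, i, j]).congr
    fun e => ?_
  have h1 : ∀ l : List Bool, l.flatMap (fun _ => [true]) = ones l.length := by
    intro l
    induction l with
    | nil => rfl
    | cons b l ih => rw [List.flatMap_cons, ih]; simp [ones, List.replicate_succ]
  have h2 : ∀ l : List Bool, l.flatMap (fun _ => ([] : List Bool)) = [] := by
    intro l
    induction l with
    | nil => rfl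
    | cons b l ih => rw [List.flatMap_cons, ih]; rfl
  simp only [Matrix.cons_val_zero, Matrix.cons_val_one, Matrix.cons_val, h1, h2, List.append_nil]

theorem nexp_twoPow {k : ℕ} (i j : Fin k) :
    NEXP O fun e : Fin k → List Bool => (e j).length = 2 ^ (e i).length := by
  have h1 : NEXP O fun e : Fin 8 → List Bool => Ld2S (e 0) (e 1) (e 4) (e 5) (e 6) (e 7) :=
    ((nexp_snoc true 4 6).and (nexp_append 5 5 7)).and ((nexp_lenLe 6 0).and (nexp_lenLe 7 1))
  have h2 := ld2_reach2 h1 (fun x y t u t' u' h => ⟨h.2.1, h.2.2⟩)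
  have h4 : NEXP O fun e : Fin 6 → List Bool =>
      ((e 2 = pair [] [true] ∧ (e 4 = ones (e 0).length ∧ e 5 = ones (e 1).length)) ∧
        e 3 = pair (e 4) (e 5)) ∧ Relation.ReflTransGen (fun a b => ∃ t u t' u',
      (a = pair t u ∧ b = pair t' u') ∧ Ld2S (e 0) (e 1) t u t' u') (e 2) (e 3) :=
    (((nexp_const _ 2).and ((ld2_ones 0 4).and (ld2_ones 1 5))).and (nexp_pair3 4 5 3)).and
      ((h2.reindex ![0, 1, 2, 3]).congr fun e => by simp)
  have h5 : NEXP O fun e : Fin 4 → List Bool => ∃ p q,
      ((e 2 = pair [] [true] ∧ (p = ones (e 0).length ∧ q = ones (e 1).length)) ∧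
        e 3 = pair p q) ∧ Relation.ReflTransGen (fun a b => ∃ t u t' u',
      (a = pair t u ∧ b = pair t' u') ∧ Ld2S (e 0) (e 1) t u t' u') (e 2) (e 3) := by
    refine nexp_ex2 (R := fun (e : Fin 4 → List Bool) p q =>
      ((e 2 = pair [] [true] ∧ (p = ones (e 0).length ∧ q = ones (e 1).length)) ∧
        e 3 = pair p q) ∧ Relation.ReflTransGen (fun a b => ∃ t u t' u',
      (a = pair t u ∧ b = pair t' u') ∧ Ld2S (e 0) (e 1) t u t' u') (e 2) (e 3)) h4
      (g := fun n => n) PolyB.id monotone_id ?_
    rintro e a b ⟨⟨⟨-, rfl, rfl⟩, -⟩, -⟩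
    have h5 := len_le_size e 0
    have h6 := len_le_size e 1
    rw [List.length_replicate, List.length_replicate]
    exact ⟨h5, h6⟩
  have h6 : NEXP O fun e : Fin 2 → List Bool => ∃ s f p q,
      ((s = pair [] [true] ∧ (p = ones (e 0).length ∧ q = ones (e 1).length)) ∧
        f = pair p q) ∧ Relation.ReflTransGen (fun a b => ∃ t u t' u',
      (a = pair t u ∧ b = pair t' u') ∧ Ld2S (e 0) (e 1) t u t' u') s f := by
    refine nexp_ex2 (R := fun (e : Fin 2 → List Bool) s f => ∃ p q,
      ((s = pair [] [true] ∧ (p = ones (e 0).length ∧ q = ones (e 1).length)) ∧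
        f = pair p q) ∧ Relation.ReflTransGen (fun a b => ∃ t u t' u',
      (a = pair t u ∧ b = pair t' u') ∧ Ld2S (e 0) (e 1) t u t' u') s f) h5
      (g := fun n => 3 * n + 3) (((PolyB.const 3).mul PolyB.id).add (PolyB.const 3)) ?_ ?_
    · intro a b hab
      show 3 * a + 3 ≤ 3 * b + 3
      omega
    · rintro e a b ⟨p, q, ⟨⟨rfl, rfl, rfl⟩, rfl⟩, -⟩
      have h5 := len_le_size e 0
      have h6 := len_le_size e 1
      rw [length_pair, length_pair]
      simp only [List.length_replicate, List.length_nil, List.length_singleton]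
      constructor <;> omega
  refine (h6.reindex ![i, j]).congr fun e => ?_
  simp only [Matrix.cons_val_zero, Matrix.cons_val_one]
  rw [← ld2_iff (e i) (e j)]
  constructor
  · rintro ⟨s, f, p, q, ⟨⟨rfl, rfl, rfl⟩, rfl⟩, h⟩
    exact h
  · intro h
    exact ⟨_, _, _, _, ⟨⟨rfl, rfl, rfl⟩, rfl⟩, h⟩

theorem nexp_log {k : ℕ} (i j : Fin k) :
    NEXP O fun e : Fin k → List Bool => (e j).length = Nat.log 2 ((e i).length + 1) := by
  have h1 : NEXP O fun e : Fin 5 → List Bool => ((e 2).length = 2 ^ (e 1).length ∧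
      ((e 3).length = 1 * (e 0).length + 1 ∧ (e 4).length = 2 * (e 2).length + 0)) ∧
      ((e 2).length ≤ (e 3).length ∧ ¬ (e 4).length ≤ (e 3).length) := by
    refine ((nexp_twoPow 1 2).and ((nexp_lin 1 1 0 3).and (nexp_lin 2 0 2 4))).and
      ((nexp_lenLe 2 3).and ?_)
    have h2 : NEXP O fun e : Fin 3 → List Bool => (e 2).length = 1 * (e 1).length + 1 ∧
        (e 2).length ≤ (e 0).length := (nexp_lin 1 1 1 2).and (nexp_lenLe 2 0)
    have h3 : NEXP O fun e : Fin 2 → List Bool => ∃ z : List Bool, z.length = 1 * (e 1).length + 1 ∧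
        z.length ≤ (e 0).length := by
      refine nexp_ex (R := fun (e : Fin 2 → List Bool) z => z.length = 1 * (e 1).length + 1 ∧
        z.length ≤ (e 0).length) h2 (g := fun n => n) PolyB.id ?_
      rintro e z ⟨-, h⟩
      exact h.trans (len_le_size e 0)
    refine (h3.reindex ![4, 3]).congr fun e => ?_
    simp only [Matrix.cons_val_zero, Matrix.cons_val_one]
    constructor
    · rintro ⟨z, h4, h5⟩; omega
    · intro h
      exact ⟨ones (1 * (e 3).length + 1), by simp, by simp; omega⟩
  have h2 : NEXP O fun e : Fin 3 → List Bool => ∃ a b : List Bool, ((e 2).length = 2 ^ (e 1).length ∧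
      (a.length = 1 * (e 0).length + 1 ∧ b.length = 2 * (e 2).length + 0)) ∧
      ((e 2).length ≤ a.length ∧ ¬ b.length ≤ a.length) := by
    refine nexp_ex2 (R := fun (e : Fin 3 → List Bool) a b => ((e 2).length = 2 ^ (e 1).length ∧
      (a.length = 1 * (e 0).length + 1 ∧ b.length = 2 * (e 2).length + 0)) ∧
      ((e 2).length ≤ a.length ∧ ¬ b.length ≤ a.length)) h1
      (g := fun n => 2 * n + 1) (((PolyB.const 2).mul PolyB.id).add (PolyB.const 1)) ?_ ?_
    · intro a b hab
      show 2 * a + 1 ≤ 2 * b + 1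
      omega
    · rintro e a b ⟨⟨-, h3, h4⟩, -⟩
      have h5 := len_le_size e 0
      have h6 := len_le_size e 2
      constructor <;> omega
  have h3 : NEXP O fun e : Fin 2 → List Bool => ∃ z a b : List Bool,
      (z.length = 2 ^ (e 1).length ∧
      (a.length = 1 * (e 0).length + 1 ∧ b.length = 2 * z.length + 0)) ∧
      (z.length ≤ a.length ∧ ¬ b.length ≤ a.length) := by
    refine nexp_ex (R := fun (e : Fin 2 → List Bool) z => ∃ a b : List Bool,
      (z.length = 2 ^ (e 1).length ∧
      (a.length = 1 * (e 0).length + 1 ∧ b.length = 2 * z.length + 0)) ∧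
      (z.length ≤ a.length ∧ ¬ b.length ≤ a.length)) h2
      (g := fun n => n + 1) (PolyB.id.add (PolyB.const 1)) ?_
    rintro e z ⟨a, b, ⟨-, h3, -⟩, h5, -⟩
    have h6 := len_le_size e 0
    show _ ≤ size e + 1
    omega
  refine (h3.reindex ![i, j]).congr fun e => ?_
  simp only [Matrix.cons_val_zero, Matrix.cons_val_one]
  constructor
  · rintro ⟨z, a, b, ⟨h4, h5, h6⟩, h7, h8⟩
    symm
    rw [Nat.log_eq_iff (Or.inr ⟨by norm_num, by omega⟩), pow_succ]
    constructor <;> omega
  · intro h
    have h4 := (Nat.log_eq_iff (Or.inr ⟨by norm_num, by omega⟩)).1 h.symm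
    rw [pow_succ] at h4
    refine ⟨ones (2 ^ (e j).length), ones (1 * (e i).length + 1), ones (2 * 2 ^ (e j).length + 0),
      ⟨by simp, by simp, by simp⟩, by simp; omega, by simp; omega⟩

theorem nexp_logMul (c d : ℕ) {k : ℕ} (i j : Fin k) :
    NEXP O fun e : Fin k → List Bool => (e j).length = c * Nat.log 2 ((e i).length + 1) + d := by
  have h1 : NEXP O fun e : Fin 3 → List Bool => (e 2).length = Nat.log 2 ((e 0).length + 1) ∧
      (e 1).length = c * (e 2).length + d := (nexp_log 0 2).and (nexp_lin c d 2 1)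
  have h2 : NEXP O fun e : Fin 2 → List Bool => ∃ z : List Bool,
      z.length = Nat.log 2 ((e 0).length + 1) ∧ (e 1).length = c * z.length + d := by
    refine nexp_ex (R := fun (e : Fin 2 → List Bool) z =>
      z.length = Nat.log 2 ((e 0).length + 1) ∧ (e 1).length = c * z.length + d) h1
      (g := fun n => n) PolyB.id ?_
    rintro e z ⟨h, -⟩
    have h3 := Nat.log_lt_of_lt_pow (b := 2) (x := (e 0).length + 1) (y := (e 0).length + 1) (by omega)
      Nat.lt_two_pow_self
    have h4 := len_le_size e 0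
    show _ ≤ size e
    omega
  refine (h2.reindex ![i, j]).congr fun e => ?_
  simp only [Matrix.cons_val_zero, Matrix.cons_val_one]
  constructor
  · rintro ⟨z, h3, h4⟩
    rw [h4, h3]
  · intro h
    exact ⟨ones (Nat.log 2 ((e i).length + 1)), by simp, by simpa using h⟩

theorem nexp_logDiv {N : ℕ} (hN : 1 ≤ N) (d : ℕ) {k : ℕ} (i j : Fin k) :
    NEXP O fun e : Fin k → List Bool => (e j).length = Nat.log 2 ((e i).length + 1) / N + d := by
  have h1 : NEXP O fun e : Fin 4 → List Bool => ((e 2).length = Nat.log 2 ((e 0).length + 1) ∧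
      (e 1).length = 1 * (e 3).length + d) ∧ ∃ r ∈ Finset.range N, (e 2).length = N * (e 3).length + r :=
    ((nexp_log 0 2).and (nexp_lin 1 d 3 1)).and
      (NEXP.finite_exists (Finset.range N) fun r _ => nexp_lin N r 3 2)
  have h2 : NEXP O fun e : Fin 2 → List Bool => ∃ z w : List Bool,
      (z.length = Nat.log 2 ((e 0).length + 1) ∧
      (e 1).length = 1 * w.length + d) ∧ ∃ r ∈ Finset.range N, z.length = N * w.length + r := by
    refine nexp_ex2 (R := fun (e : Fin 2 → List Bool) z w =>
      (z.length = Nat.log 2 ((e 0).length + 1) ∧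
      (e 1).length = 1 * w.length + d) ∧ ∃ r ∈ Finset.range N, z.length = N * w.length + r) h1
      (g := fun n => n) PolyB.id monotone_id ?_
    rintro e z w ⟨⟨h, h'⟩, -⟩
    have h3 := Nat.log_lt_of_lt_pow (b := 2) (x := (e 0).length + 1) (y := (e 0).length + 1) (by omega)
      Nat.lt_two_pow_self
    have h4 := len_le_size e 0
    have h5 := len_le_size e 1
    constructor
    · omega
    · omega
  refine (h2.reindex ![i, j]).congr fun e => ?_
  simp only [Matrix.cons_val_zero, Matrix.cons_val_one]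
  constructor
  · rintro ⟨z, w, ⟨h3, h4⟩, r, hr, h5⟩
    rw [Finset.mem_range] at hr
    have h6 : z.length / N = w.length := by
      rw [h5, Nat.mul_add_div (by omega), Nat.div_eq_of_lt hr, add_zero]
    rw [h4, ← h3, h6]
    ring
  · intro h
    refine ⟨ones (Nat.log 2 ((e i).length + 1)), ones (Nat.log 2 ((e i).length + 1) / N),
      ⟨by simp, by simp; omega⟩, Nat.log 2 ((e i).length + 1) % N, ?_, ?_⟩
    · rw [Finset.mem_range]
      exact Nat.mod_lt _ (by omega)
    · simp only [List.length_replicate]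
      exact (Nat.div_add_mod _ _).symm

end Pool.Agent.LibDual85
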