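import Pool.Agent.LibBHN.Mach
import Pool.Agent.LibNexp.PowLaw

/-! Runs of protocols with answers certified by advice: definitions. -/

namespace Pool.Agent.LibDual85

open Function Pool.Agent.LibNexp Pool.Agent.LibBHN

variable {O : List Bool → Bool}

/-- The padded version of a language. -/
def PadLang (C : Lang) : Lang := {y | ∃ q ∈ C, ∃ z, IsPad z ∧ y = q ++ z}

/-- The common length of the padded queries. -/
def mlen (c n : ℕ) : ℕ := 2 * n + n ^ c + (c + 3)

/-- A certificate for `q` not in the queried language, with the advice `v`. -/
def NegCert (B : Lang) (c : ℕ) (x q v : List Bool) : Prop :=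
  ∃ z, IsPad z ∧ (q ++ z).length = mlen c x.length ∧ pair (q ++ z) v ∈ B

/-- One step of a run of the protocol with certified answers. -/
def RunStep (B C : Lang) (c : ℕ) (x v β β' : List Bool) : Prop :=
  β'.length ≤ x.length ^ c + c ∧
    ((β' = β ++ [true] ∧ pair x β ∈ C) ∨ (β' = β ++ [false] ∧ NegCert B c x (pair x β) v))

/-- The claim that the computation on `x` accepts, with the advice `v`. -/
def Claim (B C : Lang) (c : ℕ) (x v : List Bool) : Prop :=
  ∃ α : List Bool, α.length = x.length ^ c + c ∧
    Relation.ReflTransGen (RunStep B C c x v) [] α ∧ pair x α ∈ C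

/-- The advice `v` is unsound at the length of the padded queries. -/
def BadAt (B C : Lang) (c : ℕ) (x v : List Bool) : Prop :=
  ∃ y : List Bool, y.length = mlen c x.length ∧ y ∈ PadLang C ∧ pair y v ∈ B

end Pool.Agent.LibDual85
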