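import Pool.Agent.LibBHN.CountA
import Pool.Agent.LibDual85.Run

/-! From advice to queries: definitions. -/

namespace Pool.Agent.LibDual85

open Function Pool.Agent.LibNexp Pool.Agent.LibBHN

variable {O : List Bool → Bool}

/-- The number of unsound advice strings of length `lam (|x|)`. -/
noncomputable def nBad (B C : Lang) (c : ℕ) (lam : ℕ → ℕ) (x : List Bool) : ℕ :=
  cnt (lam x.length) fun v => BadAt B C c x v

/-- The last query. -/
def FinalQ (B C : Lang) (c : ℕ) (lam : ℕ → ℕ) (x t : List Bool) : Prop :=
  t.length = lam x.length + 1 ∧ ∃ v : List Bool, v.length = lam x.length ∧ Claim B C c x v ∧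
    val t ≤ cnt (lam x.length) fun v' => BadAt B C c x v' ∧ v' ≠ v

/-- Good advice of length `lam n` for the padded queries on inputs of length `n`. -/
def GoodAdv (B C : Lang) (c : ℕ) (lam : ℕ → ℕ) : Prop :=
  ∀ n, ∃ a : List Bool, a.length = lam n ∧
    ∀ y : List Bool, y.length = mlen c n → (y ∉ PadLang C ↔ pair y a ∈ B)

end Pool.Agent.LibDual85
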