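import Pool.Agent.LibBHN.Misc
import Pool.Agent.LibBHN.Univ
import Pool.Agent.LibDual85.Defs
import Pool.Agent.LibDual85.Run

/-! Task LD-6. -/

namespace Pool.Agent.LibDual85

open Function Pool.Agent.LibNexp Pool.Agent.LibBHN

variable {O : List Bool → Bool}

theorem padLang_mem {C : Lang} (hC : C ∈ NEXPLang O) : PadLang C ∈ NEXPLang O := by
  have h1 : NEXP O fun e : Fin 3 → List Bool => (e 1 ∈ C ∧ IsPad (e 2)) ∧ e 0 = e 1 ++ e 2 :=
    ((nexp_mem hC 1).and (nexp_isPad 2)).and (nexp_append 1 2 0)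
  have h2 : NEXP O fun e : Fin 1 → List Bool => ∃ q z, (q ∈ C ∧ IsPad z) ∧ e 0 = q ++ z := by
    refine nexp_ex2 (R := fun (e : Fin 1 → List Bool) q z => (q ∈ C ∧ IsPad z) ∧ e 0 = q ++ z) h1
      (g := fun n => n) PolyB.id monotone_id ?_
    rintro e a b ⟨-, h⟩
    have := len_le_size e 0
    rw [h, List.length_append] at this
    constructor <;> omega
  refine h2.congr fun e => ?_
  constructor
  · rintro ⟨q, z, ⟨h3, h4⟩, h5⟩
    exact ⟨q, h3, z, h4, h5⟩
  · rintro ⟨q, h3, z, h4, h5⟩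
    exact ⟨q, z, ⟨h3, h4⟩, h5⟩

theorem nexp_mlen (c : ℕ) {k : ℕ} (i j : Fin k) :
    NEXP O fun e : Fin k → List Bool => (e j).length = mlen c (e i).length := by
  have h1 : NEXP O fun e : Fin 5 → List Bool => ((e 2).length = (e 0).length ^ c + (c + 3) ∧
      (e 3).length = 2 * (e 0).length + 0) ∧ (e 4 = e 2 ++ e 3 ∧ (e 1).length = 1 * (e 4).length + 0) :=
    ((nexp_powAdd c (c + 3) 0 2).and (nexp_lin 2 0 0 3)).and
      ((nexp_append 2 3 4).and (nexp_lin 1 0 4 1))
  have h2 : NEXP O fun e : Fin 4 → List Bool => ∃ w : List Bool,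
      ((e 2).length = (e 0).length ^ c + (c + 3) ∧
      (e 3).length = 2 * (e 0).length + 0) ∧ (w = e 2 ++ e 3 ∧ (e 1).length = 1 * w.length + 0) := by
    refine nexp_ex (R := fun (e : Fin 4 → List Bool) w =>
      ((e 2).length = (e 0).length ^ c + (c + 3) ∧
      (e 3).length = 2 * (e 0).length + 0) ∧ (w = e 2 ++ e 3 ∧ (e 1).length = 1 * w.length + 0)) h1
      (g := fun n => n) PolyB.id ?_
    rintro e w ⟨-, -, h⟩
    have := len_le_size e 1
    show _ ≤ size e
    omega
  have h3 : NEXP O fun e : Fin 2 → List Bool => ∃ a b w : List Bool,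
      (a.length = (e 0).length ^ c + (c + 3) ∧
      b.length = 2 * (e 0).length + 0) ∧ (w = a ++ b ∧ (e 1).length = 1 * w.length + 0) := by
    refine nexp_ex2 (R := fun (e : Fin 2 → List Bool) a b => ∃ w : List Bool,
      (a.length = (e 0).length ^ c + (c + 3) ∧
      b.length = 2 * (e 0).length + 0) ∧ (w = a ++ b ∧ (e 1).length = 1 * w.length + 0)) h2
      (g := fun n => n) PolyB.id monotone_id ?_
    rintro e a b ⟨w, -, rfl, h⟩
    have := len_le_size e 1
    rw [List.length_append] at h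
    constructor <;> omega
  refine (h3.reindex ![i, j]).congr fun e => ?_
  simp only [Matrix.cons_val_zero, Matrix.cons_val_one]
  unfold mlen
  constructor
  · rintro ⟨a, b, w, ⟨h4, h5⟩, rfl, h6⟩
    rw [List.length_append] at h6
    omega
  · intro h
    refine ⟨ones ((e i).length ^ c + (c + 3)), ones (2 * (e i).length), _, ⟨by simp, by simp⟩, rfl, ?_⟩
    rw [List.length_append, List.length_replicate, List.length_replicate]
    omega

theorem nexp_badAt {B C : Lang} (hB : B ∈ NEXPLang O) (hC : C ∈ NEXPLang O) (c : ℕ) :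
    NEXP O fun e : Fin 2 → List Bool => BadAt B C c (e 0) (e 1) := by
  have h1 : NEXP O fun e : Fin 3 → List Bool => (e 2).length = mlen c (e 0).length ∧
      (e 2 ∈ PadLang C ∧ pair (e 2) (e 1) ∈ B) :=
    (nexp_mlen c 0 2).and ((nexp_mem (padLang_mem hC) 2).and (nexp_pair_mem hB 2 1))
  refine nexp_ex (R := fun (e : Fin 2 → List Bool) y => y.length = mlen c (e 0).length ∧
      (y ∈ PadLang C ∧ pair y (e 1) ∈ B)) h1 (g := fun n => 2 * n + n ^ c + (c + 3))
      ((((PolyB.const 2).mul PolyB.id).add (PolyB.id.pow c)).add (PolyB.const _)) ?_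
  rintro e y ⟨h, -⟩
  have h2 := len_le_size e 0
  have h3 := Nat.pow_le_pow_left h2 c
  rw [h]
  unfold mlen
  show _ ≤ 2 * size e + size e ^ c + (c + 3)
  omega

end Pool.Agent.LibDual85
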