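import Pool.Agent.LibBHN.Misc
import Pool.Agent.LibBHN.Univ
import Pool.Agent.LibDual85.Run

/-! Task LD-7. -/

namespace Pool.Agent.LibDual85

open Function Pool.Agent.LibNexp Pool.Agent.LibBHN

variable {O : List Bool → Bool}

private theorem ld7_mlen (c : ℕ) :
    NEXP O fun e : Fin 2 → List Bool => (e 1).length = mlen c (e 0).length := by
  have h1 : NEXP O fun e : Fin 5 → List Bool => (e 2).length = 2 * (e 0).length + 0 ∧
      (e 3).length = (e 0).length ^ c + (c + 3) ∧ e 4 = e 2 ++ e 3 ∧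
      (e 1).length = 1 * (e 4).length + 0 :=
    (nexp_lin 2 0 0 2).and ((nexp_powAdd c (c + 3) 0 3).and ((nexp_append 2 3 4).and (nexp_lin 1 0 4 1)))
  have h2 : NEXP O fun e : Fin 4 → List Bool => ∃ z : List Bool, (e 2).length = 2 * (e 0).length + 0 ∧
      (e 3).length = (e 0).length ^ c + (c + 3) ∧ z = e 2 ++ e 3 ∧
      (e 1).length = 1 * z.length + 0 := by
    refine nexp_ex (R := fun (e : Fin 4 → List Bool) z => (e 2).length = 2 * (e 0).length + 0 ∧
      (e 3).length = (e 0).length ^ c + (c + 3) ∧ z = e 2 ++ e 3 ∧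
      (e 1).length = 1 * z.length + 0) h1 (g := fun n => n) PolyB.id ?_
    rintro e z ⟨-, -, -, h⟩
    have := len_le_size e 1
    show _ ≤ size e
    omega
  have h3 : NEXP O fun e : Fin 2 → List Bool => ∃ a b z : List Bool, a.length = 2 * (e 0).length + 0 ∧
      b.length = (e 0).length ^ c + (c + 3) ∧ z = a ++ b ∧
      (e 1).length = 1 * z.length + 0 := by
    refine nexp_ex2 (R := fun (e : Fin 2 → List Bool) a b => ∃ z : List Bool, a.length = 2 * (e 0).length + 0 ∧
      b.length = (e 0).length ^ c + (c + 3) ∧ z = a ++ b ∧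
      (e 1).length = 1 * z.length + 0) h2 (g := fun n => n) PolyB.id monotone_id ?_
    rintro e a b ⟨z, -, -, rfl, h⟩
    have := len_le_size e 1
    rw [List.length_append] at h
    show _ ≤ size e ∧ _ ≤ size e
    omega
  refine h3.congr fun e => ?_
  constructor
  · rintro ⟨a, b, z, h4, h5, rfl, h6⟩
    rw [h6, List.length_append, h4, h5]
    unfold mlen
    ring
  · intro h
    refine ⟨List.replicate (2 * (e 0).length) true, List.replicate ((e 0).length ^ c + (c + 3)) true, _,
      by simp, by simp, rfl, ?_⟩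
    rw [h, List.length_append, List.length_replicate, List.length_replicate]
    unfold mlen
    ring

private theorem ld7_mlen_le (c n m : ℕ) (h : n ≤ m) : mlen c n ≤ mlen c m := by
  unfold mlen
  have := Nat.pow_le_pow_left h c
  omega

private theorem ld7_poly (c : ℕ) : PolyB (mlen c) := by
  unfold mlen
  exact ((((PolyB.const 2).mul PolyB.id).add (PolyB.id.pow c)).add (PolyB.const (c + 3)))

theorem nexp_negCert {B : Lang} (hB : B ∈ NEXPLang O) (c : ℕ) :
    NEXP O fun e : Fin 3 → List Bool => NegCert B c (e 0) (pair (e 0) (e 1)) (e 2) := by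
  have h1 : NEXP O fun e : Fin 6 → List Bool => e 3 = pair (e 0) (e 1) ∧ IsPad (e 4) ∧
      e 5 = e 3 ++ e 4 ∧ (e 5).length = mlen c (e 0).length ∧ pair (e 5) (e 2) ∈ B := by
    refine NEXP.and ?_ ((nexp_isPad 4).and ((nexp_append 3 4 5).and (NEXP.and ?_ (nexp_pair_mem hB 5 2))))
    · refine ((nexp_pairRel (O := O)).reindex ![0, 1, 3]).congr fun e => ?_
      simp
    · refine ((ld7_mlen (O := O) c).reindex ![0, 5]).congr fun e => ?_
      simp
  have h2 : NEXP O fun e : Fin 5 → List Bool => ∃ y : List Bool, e 3 = pair (e 0) (e 1) ∧ IsPad (e 4) ∧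
      y = e 3 ++ e 4 ∧ y.length = mlen c (e 0).length ∧ pair y (e 2) ∈ B := by
    refine nexp_ex (R := fun (e : Fin 5 → List Bool) y => e 3 = pair (e 0) (e 1) ∧ IsPad (e 4) ∧
      y = e 3 ++ e 4 ∧ y.length = mlen c (e 0).length ∧ pair y (e 2) ∈ B) h1 (g := mlen c) (ld7_poly c) ?_
    rintro e y ⟨-, -, -, h, -⟩
    rw [h]
    exact ld7_mlen_le c _ _ (len_le_size e 0)
  have h3 : NEXP O fun e : Fin 3 → List Bool => ∃ w z y : List Bool, w = pair (e 0) (e 1) ∧ IsPad z ∧
      y = w ++ z ∧ y.length = mlen c (e 0).length ∧ pair y (e 2) ∈ B := by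
    refine nexp_ex2 (R := fun (e : Fin 3 → List Bool) w z => ∃ y : List Bool, w = pair (e 0) (e 1) ∧ IsPad z ∧
      y = w ++ z ∧ y.length = mlen c (e 0).length ∧ pair y (e 2) ∈ B) h2 (g := mlen c) (ld7_poly c)
      (fun n m h => ld7_mlen_le c n m h) ?_
    rintro e w z ⟨y, -, -, rfl, h, -⟩
    have h4 := ld7_mlen_le c _ _ (len_le_size e 0)
    rw [List.length_append] at h
    constructor <;> omega
  refine h3.congr fun e => ?_
  unfold NegCert
  constructor
  · rintro ⟨w, z, y, rfl, h4, rfl, h5, h6⟩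
    exact ⟨z, h4, h5, h6⟩
  · rintro ⟨z, h4, h5, h6⟩
    exact ⟨_, z, _, rfl, h4, rfl, h5, h6⟩

theorem nexp_runStep {B C : Lang} (hB : B ∈ NEXPLang O) (hC : C ∈ NEXPLang O) (c : ℕ) :
    NEXP O fun e : Fin 4 → List Bool => RunStep B C c (e 0) (e 1) (e 2) (e 3) := by
  have h1 : NEXP O fun e : Fin 2 → List Bool => ∃ z : List Bool,
      z.length = (e 0).length ^ c + c ∧ (e 1).length ≤ z.length := by
    refine nexp_ex (R := fun (e : Fin 2 → List Bool) z => z.length = (e 0).length ^ c + c ∧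
      (e 1).length ≤ z.length) ((nexp_powAdd c c 0 2).and (nexp_lenLe 1 2))
      (g := fun n => n ^ c + c) ((PolyB.id.pow c).add (PolyB.const c)) ?_
    rintro e z ⟨h, -⟩
    rw [h]
    exact Nat.add_le_add_right (Nat.pow_le_pow_left (len_le_size e 0) c) c
  have h2 : NEXP O fun e : Fin 2 → List Bool => (e 1).length ≤ (e 0).length ^ c + c := by
    refine h1.congr fun e => ?_
    constructor
    · rintro ⟨z, h3, h4⟩
      exact h3 ▸ h4
    · intro h
      exact ⟨List.replicate ((e 0).length ^ c + c) true, by simp, by simpa using h⟩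
  have h3 : NEXP O fun e : Fin 4 → List Bool => (e 3).length ≤ (e 0).length ^ c + c := by
    refine (h2.reindex ![0, 3]).congr fun e => ?_
    simp
  have h4 : NEXP O fun e : Fin 4 → List Bool => NegCert B c (e 0) (pair (e 0) (e 2)) (e 1) := by
    refine ((nexp_negCert hB c).reindex ![0, 2, 1]).congr fun e => ?_
    simp
  exact h3.and (((nexp_snoc true 2 3).and (nexp_pair_mem hC 0 2)).or ((nexp_snoc false 2 3).and h4))

theorem nexp_claim {B C : Lang} (hB : B ∈ NEXPLang O) (hC : C ∈ NEXPLang O) (c : ℕ) :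
    NEXP O fun e : Fin 2 → List Bool => Claim B C c (e 0) (e 1) := by
  have h1 := nexp_reach (k := 2) (S := fun (e : Fin 2 → List Bool) a b => RunStep B C c (e 0) (e 1) a b)
    (nexp_runStep (O := O) hB hC c) (g := fun n => n ^ c + c) ((PolyB.id.pow c).add (PolyB.const c))
    (fun n m h => Nat.add_le_add_right (Nat.pow_le_pow_left h c) c) (by
      rintro e a b ⟨h, -⟩
      exact h.trans (Nat.add_le_add_right (Nat.pow_le_pow_left (len_le_size e 0) c) c))
  have h2 : NEXP O fun e : Fin 4 → List Bool => (e 3).length = (e 0).length ^ c + c ∧ e 2 = [] ∧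
      Relation.ReflTransGen (RunStep B C c (e 0) (e 1)) (e 2) (e 3) ∧ pair (e 0) (e 3) ∈ C :=
    (nexp_powAdd c c 0 3).and ((nexp_const [] 2).and (NEXP.and h1 (nexp_pair_mem hC 0 3)))
  have h3 : NEXP O fun e : Fin 2 → List Bool => ∃ s α : List Bool, α.length = (e 0).length ^ c + c ∧ s = [] ∧
      Relation.ReflTransGen (RunStep B C c (e 0) (e 1)) s α ∧ pair (e 0) α ∈ C := by
    refine nexp_ex2 (R := fun (e : Fin 2 → List Bool) s α => α.length = (e 0).length ^ c + c ∧ s = [] ∧
      Relation.ReflTransGen (RunStep B C c (e 0) (e 1)) s α ∧ pair (e 0) α ∈ C) h2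
      (g := fun n => n ^ c + c) ((PolyB.id.pow c).add (PolyB.const c))
      (fun n m h => Nat.add_le_add_right (Nat.pow_le_pow_left h c) c) ?_
    rintro e s α ⟨h, rfl, -, -⟩
    refine ⟨Nat.zero_le _, ?_⟩
    rw [h]
    exact Nat.add_le_add_right (Nat.pow_le_pow_left (len_le_size e 0) c) c
  refine h3.congr fun e => ?_
  unfold Claim
  constructor
  · rintro ⟨s, α, h4, rfl, h5, h6⟩
    exact ⟨α, h4, h5, h6⟩
  · rintro ⟨α, h4, h5, h6⟩
    exact ⟨[], α, h4, rfl, h5, h6⟩

end Pool.Agent.LibDual85
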