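import Pool.Agent.LibBHN.Count
import Pool.Agent.LibDual85.AdvADefs
import Pool.Agent.LibDual85.RunA
import Pool.Agent.LibDual85.RunB

/-! Task LD-10. -/

namespace Pool.Agent.LibDual85

open Function Pool.Agent.LibNexp Pool.Agent.LibBHN

variable {O : List Bool → Bool}

theorem nexp_finalQ {B C : Lang} (hB : B ∈ NEXPLang O) (hC : C ∈ NEXPLang O) (c : ℕ)
    {lam : ℕ → ℕ}
    (hlam : NEXP O fun e : Fin 2 → List Bool => (e 1).length = lam (e 0).length)
    (hlamp : PolyB lam) :
    NEXP O fun e : Fin 2 → List Bool => FinalQ B C c lam (e 0) (e 1) := by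
  have h1 : NEXP O fun e : Fin 3 → List Bool => BadAt B C c (e 0) (e 2) ∧ e 2 ≠ e 1 :=
    (((nexp_badAt hB hC c).reindex ![0, 2]).congr fun e => by simp).and (nexp_ne 2 1)
  have h2 : NEXP O fun e : Fin 3 → List Bool => ∃ n, (e 2).length = n + 1 ∧
      val (e 2) ≤ cnt n fun v' => BadAt B C c (e 0) v' ∧ v' ≠ e 1 :=
    nexp_count (k := 2) (R := fun e v' => BadAt B C c (e 0) v' ∧ v' ≠ e 1) h1
  have h3 : NEXP O fun e : Fin 3 → List Bool => ∃ n, (e 1).length = n + 1 ∧
      val (e 1) ≤ cnt n fun v' => BadAt B C c (e 0) v' ∧ v' ≠ e 2 :=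
    (h2.reindex ![0, 2, 1]).congr fun e => by simp
  have h4 : NEXP O fun e : Fin 3 → List Bool => (e 1).length = 1 * (e 2).length + 1 ∧
      (e 2).length = lam (e 0).length ∧ Claim B C c (e 0) (e 2) ∧
      ∃ n, (e 1).length = n + 1 ∧
        val (e 1) ≤ cnt n fun v' => BadAt B C c (e 0) v' ∧ v' ≠ e 2 :=
    (nexp_lin 1 1 2 1).and (((hlam.reindex ![0, 2]).congr fun e => by simp).and
      ((((nexp_claim hB hC c).reindex ![0, 2]).congr fun e => by simp).and h3))
  have h5 := nexp_ex (R := fun (e : Fin 2 → List Bool) v => (e 1).length = 1 * v.length + 1 ∧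
      v.length = lam (e 0).length ∧ Claim B C c (e 0) v ∧
      ∃ n, (e 1).length = n + 1 ∧
        val (e 1) ≤ cnt n fun v' => BadAt B C c (e 0) v' ∧ v' ≠ v) h4 (g := fun n => n)
      PolyB.id (by
        rintro e v ⟨h, -⟩
        have := len_le_size e 1
        omega)
  refine h5.congr fun e => ?_
  unfold FinalQ
  constructor
  · rintro ⟨v, h6, h7, h8, n, h9, h10⟩
    have hn : n = lam (e 0).length := by omega
    subst hn
    exact ⟨by omega, v, h7, h8, h10⟩
  · rintro ⟨h6, v, h7, h8, h9⟩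
    exact ⟨v, by omega, h7, h8, lam (e 0).length, h6, h9⟩

theorem nexp_threshQ {B C : Lang} (hB : B ∈ NEXPLang O) (hC : C ∈ NEXPLang O) (c : ℕ)
    {lam : ℕ → ℕ}
    (hlam : NEXP O fun e : Fin 2 → List Bool => (e 1).length = lam (e 0).length) :
    NEXP O fun e : Fin 2 → List Bool => (e 1).length = lam (e 0).length + 1 ∧
      val (e 1) ≤ nBad B C c lam (e 0) := by
  have h2 : NEXP O fun e : Fin 2 → List Bool => ∃ n, (e 1).length = n + 1 ∧
      val (e 1) ≤ cnt n fun v' => BadAt B C c (e 0) v' :=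
    nexp_count (k := 1) (R := fun e v' => BadAt B C c (e 0) v') (nexp_badAt hB hC c)
  have h4 : NEXP O fun e : Fin 3 → List Bool => (e 1).length = 1 * (e 2).length + 1 ∧
      (e 2).length = lam (e 0).length :=
    (nexp_lin 1 1 2 1).and ((hlam.reindex ![0, 2]).congr fun e => by simp)
  have h5 := nexp_ex (R := fun (e : Fin 2 → List Bool) v => (e 1).length = 1 * v.length + 1 ∧
      v.length = lam (e 0).length) h4 (g := fun n => n) PolyB.id (by
        rintro e v ⟨h, -⟩
        have := len_le_size e 1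
        omega)
  refine (h5.and h2).congr fun e => ?_
  unfold nBad
  constructor
  · rintro ⟨⟨v, h6, h7⟩, n, h9, h10⟩
    have hn : n = lam (e 0).length := by omega
    subst hn
    exact ⟨by omega, h10⟩
  · rintro ⟨h6, h9⟩
    exact ⟨⟨List.replicate (lam (e 0).length) false, by simp; omega, by simp⟩,
      lam (e 0).length, h6, h9⟩

end Pool.Agent.LibDual85
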