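import Pool.Agent.LibBHN.PNexp
import Pool.Agent.LibDual85.Run

/-! Task LD-8. -/

namespace Pool.Agent.LibDual85

open Function Pool.Agent.LibNexp Pool.Agent.LibBHN

variable {O : List Bool → Bool}

theorem claim_sound {B C : Lang} {c : ℕ} {x v : List Bool} (hbad : ¬ BadAt B C c x v)
    (h : Claim B C c x v) : pair x (ans C x (x.length ^ c + c)) ∈ C := by
  obtain ⟨α, hα, hr, hC⟩ := h
  have key : ∀ β, Relation.ReflTransGen (RunStep B C c x v) [] β → β = ans C x β.length := by
    intro β hβ
    induction hβ with
    | refl => rfl
    | tail _ hstep ih =>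
      obtain ⟨-, h | h⟩ := hstep
      · obtain ⟨h1, h2⟩ := h
        rw [h1, List.length_append, List.length_singleton, ans, ← ih]
        simp [h2]
      · obtain ⟨h1, z, hz, hlen, hB⟩ := h
        rename_i b c' _
        have hnot : pair x b ∉ C := fun hq => hbad ⟨_, hlen, ⟨_, hq, z, hz, rfl⟩, hB⟩
        rw [h1, List.length_append, List.length_singleton, ans, ← ih]
        simp [hnot]
  have := key α hr
  rw [hα] at this
  rwa [this] at hC

theorem claim_complete {B C : Lang} {c : ℕ} {x v : List Bool}
    (hv : ∀ y : List Bool, y.length = mlen c x.length → (y ∉ PadLang C ↔ pair y v ∈ B)) :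
    ¬ BadAt B C c x v ∧ (pair x (ans C x (x.length ^ c + c)) ∈ C → Claim B C c x v) := by
  constructor
  · rintro ⟨y, hy, hyp, hyB⟩
    exact (hv y hy).2 hyB hyp
  · intro hC
    refine ⟨_, length_ans C x _, ?_, hC⟩
    have key : ∀ i ≤ x.length ^ c + c, Relation.ReflTransGen (RunStep B C c x v) [] (ans C x i) := by
      intro i
      induction i with
      | zero => intro _; exact .refl
      | succ i ih =>
        intro hi
        refine (ih (by omega)).tail ⟨by rw [length_ans]; exact hi, ?_⟩
        by_cases hq : pair x (ans C x i) ∈ C
        · left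
          exact ⟨by rw [ans]; simp [hq], hq⟩
        · right
          refine ⟨by rw [ans]; simp [hq], ?_⟩
          have hlq : (pair x (ans C x i)).length = 2 * x.length + i + 2 := by
            rw [length_pair, length_ans]
          obtain ⟨j, hj⟩ : ∃ j, mlen c x.length = 2 * x.length + i + 2 + (j + 1) := by
            refine ⟨mlen c x.length - (2 * x.length + i + 2) - 1, ?_⟩
            unfold mlen
            omega
          have hlen : (pair x (ans C x i) ++ true :: List.replicate j false).length = mlen c x.length := by
            rw [List.length_append, hlq, hj]; simp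
          refine ⟨true :: List.replicate j false, ⟨j, rfl⟩, hlen, ?_⟩
          rw [← hv _ hlen]
          rintro ⟨q, hq', z, ⟨j', rfl⟩, he⟩
          rw [pad_injective he] at hq
          exact hq hq'
    exact key _ le_rfl

end Pool.Agent.LibDual85
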