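import Pool.Agent.LibDual85.AdvADefs
import Pool.Agent.LibDual85.RunC

/-! Task LD-9. -/

namespace Pool.Agent.LibDual85

open Function Pool.Agent.LibNexp Pool.Agent.LibBHN

variable {O : List Bool → Bool}

theorem nBad_lt {B C : Lang} {c : ℕ} {lam : ℕ → ℕ} (h : GoodAdv B C c lam) (x : List Bool) :
    nBad B C c lam x < 2 ^ lam x.length := by
  classical
  obtain ⟨a, ha, hv⟩ := h x.length
  have hnb := (claim_complete (B := B) (C := C) (c := c) (x := x) (v := a) hv).1
  unfold nBad cnt
  conv_rhs => rw [← Finset.card_range (2 ^ lam x.length)]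
  apply Finset.card_lt_card
  rw [Finset.filter_ssubset]
  refine ⟨val a, ?_, ?_⟩
  · rw [Finset.mem_range, ← ha]
    exact cnt_val_lt a
  · rw [← ha, bits_val]
    exact hnb

theorem finalQ_iff {B C : Lang} {c : ℕ} {lam : ℕ → ℕ} (h : GoodAdv B C c lam) {x t : List Bool}
    (hl : t.length = lam x.length + 1) (ht : val t = nBad B C c lam x) :
    FinalQ B C c lam x t ↔ pair x (ans C x (x.length ^ c + c)) ∈ C := by
  constructor
  · rintro ⟨-, v, hv, hcl, hle⟩
    by_cases hb : BadAt B C c x v
    · have h1 := cnt_mem (P := fun v => BadAt B C c x v) hb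
      rw [hv] at h1
      rw [ht] at hle
      unfold nBad at hle
      omega
    · exact claim_sound hb hcl
  · intro hC
    obtain ⟨a, ha, hv⟩ := h x.length
    have hnb := claim_complete (B := B) (C := C) (c := c) (x := x) (v := a) hv
    refine ⟨hl, a, ha, hnb.2 hC, ?_⟩
    rw [ht, cnt_notMem (P := fun v => BadAt B C c x v) hnb.1]
    exact le_rfl

end Pool.Agent.LibDual85
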