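import Pool.Agent.LibDual85.AdvA10
import Pool.Agent.LibDual85.AdvA9
import Pool.Agent.LibDual85.KProt
import Pool.Agent.LibDual85.Search

/-! Task LD-11. -/

namespace Pool.Agent.LibDual85

open Function Pool.Agent.LibNexp Pool.Agent.LibBHN

variable {O : List Bool → Bool}

/-- The queries of the binary search for the number of bad advice strings. -/
def DSearch (B C : Lang) (c : ℕ) (lam : ℕ → ℕ) (x α : List Bool) : Prop :=
  ∃ t, (α.length < lam x.length ∧ t = thr (lam x.length) α) ∧
    (t.length = lam x.length + 1 ∧ val t ≤ nBad B C c lam x)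

/-- The last query. -/
def DLast (B C : Lang) (c : ℕ) (lam : ℕ → ℕ) (x α : List Bool) : Prop :=
  α.length = lam x.length ∧ ∃ z : Fin 2 → List Bool, (z 0 = α.reverse ∧ z 1 = z 0 ++ [false]) ∧
    FinalQ B C c lam x (z 1)

theorem nexp_dSearch {B C : Lang} (hB : B ∈ NEXPLang O) (hC : C ∈ NEXPLang O) (c : ℕ)
    {lam : ℕ → ℕ}
    (hlam : NEXP O fun e : Fin 2 → List Bool => (e 1).length = lam (e 0).length)
    (hlamp : PolyB lam) :
    NEXP O fun e : Fin 2 → List Bool => DSearch B C c lam (e 0) (e 1) := by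
  have h1 : NEXP O fun e : Fin 3 → List Bool =>
      ((e 1).length < lam (e 0).length ∧ e 2 = thr (lam (e 0).length) (e 1)) ∧
      ((e 2).length = lam (e 0).length + 1 ∧ val (e 2) ≤ nBad B C c lam (e 0)) := by
    refine (nexp_thr hlam hlamp).and
      (((nexp_threshQ hB hC c hlam).reindex ![0, 2]).congr fun e => ?_)
    simp
  obtain ⟨d, hd⟩ := hlamp
  refine nexp_ex (k := 2) (R := fun e t =>
      ((e 1).length < lam (e 0).length ∧ t = thr (lam (e 0).length) (e 1)) ∧
      (t.length = lam (e 0).length + 1 ∧ val t ≤ nBad B C c lam (e 0))) h1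
    (g := fun n => n ^ d + d + 1) ((PolyB.id.comp_pow d).add (PolyB.const 1)) ?_
  rintro e t ⟨-, h2, -⟩
  have l0 := len_le_size e 0
  have b1 : lam (e 0).length ≤ size e ^ d + d :=
    (hd _).trans (Nat.add_le_add_right (Nat.pow_le_pow_left l0 d) d)
  show _ ≤ size e ^ d + d + 1
  omega

theorem nexp_dLast {B C : Lang} (hB : B ∈ NEXPLang O) (hC : C ∈ NEXPLang O) (c : ℕ)
    {lam : ℕ → ℕ}
    (hlam : NEXP O fun e : Fin 2 → List Bool => (e 1).length = lam (e 0).length)
    (hlamp : PolyB lam) :
    NEXP O fun e : Fin 2 → List Bool => DLast B C c lam (e 0) (e 1) := by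
  have h1 : NEXP O fun e : Fin 4 → List Bool => (e 2 = (e 1).reverse ∧ e 3 = e 2 ++ [false]) ∧
      FinalQ B C c lam (e 0) (e 3) := by
    refine ((nexp_rev 1 2).and (nexp_snoc false 2 3)).and
      (((nexp_finalQ hB hC c hlam hlamp).reindex ![0, 3]).congr fun e => ?_)
    simp
  refine hlam.and (nexp_exN (k := 2) (m := 2) (R := fun e z =>
      (z 0 = (e 1).reverse ∧ z 1 = z 0 ++ [false]) ∧ FinalQ B C c lam (e 0) (z 1)) h1
    (g := fun n => n + 1) (PolyB.id.add (PolyB.const 1)) (fun m n h => by simp only; omega) ?_)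
  rintro e z ⟨⟨h2, h3⟩, -⟩ j
  have l1 := len_le_size e 1
  have b2 := congrArg List.length h2
  have b3 := congrArg List.length h3
  simp only [List.length_reverse, List.length_append, List.length_cons, List.length_nil] at b2 b3
  show _ ≤ size e + 1
  fin_cases j
  · show (z 0).length ≤ _; omega
  · show (z 1).length ≤ _; omega

theorem pqueryF_of_good {B C : Lang} (hB : B ∈ NEXPLang O) (hC : C ∈ NEXPLang O) (c : ℕ)
    {lam : ℕ → ℕ}
    (hlam : NEXP O fun e : Fin 2 → List Bool => (e 1).length = lam (e 0).length)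
    (hlamp : PolyB lam) (h : GoodAdv B C c lam) :
    {x | pair x (ans C x (x.length ^ c + c)) ∈ C} ∈
      PQueryF (NEXPLang O) fun n => lam n + 1 := by
  classical
  obtain ⟨D, hD, hDR⟩ := rel_of_nexp (C := fun x α => DSearch B C c lam x α ∨
    DLast B C c lam x α) (O := O) ((nexp_dSearch hB hC c hlam hlamp).or
      (nexp_dLast hB hC c hlam hlamp))
  have key : {x | pair x (ans C x (x.length ^ c + c)) ∈ C} =
      {x | (ans D x (lam x.length + 1)).getLast? = some true} := by
    ext x
    rw [Set.mem_ofPred_eq, Set.mem_ofPred_eq]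
    set l := lam x.length with hl
    have hs : ∀ i < l, ans D x (i + 1) = ans D x i ++
        [decide (val (thr l (ans D x i)) ≤ nBad B C c lam x)] := by
      intro i hi
      rw [ans]
      congr 2
      have h1 : (ans D x i).length < l := by rw [length_ans]; exact hi
      have h2 : pair x (ans D x i) ∈ D ↔ val (thr l (ans D x i)) ≤ nBad B C c lam x := by
        rw [hDR]
        constructor
        · rintro (⟨t, ⟨h3, rfl⟩, h4, h5⟩ | ⟨h3, -⟩)
          · exact h5
          · omega
        · intro h3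
          exact Or.inl ⟨_, ⟨h1, rfl⟩, length_thr h1, h3⟩
      simp only [h2]
    obtain ⟨h3, h4⟩ := search (nBad_lt h x) (a := ans D x) rfl hs l le_rfl
    rw [Nat.sub_self, pow_zero, Nat.div_one] at h4
    rw [ans, List.getLast?_append]
    simp only [List.getLast?_singleton, Option.some_or, Option.some.injEq, decide_eq_true_eq]
    rw [hDR]
    have h5 : ¬ DSearch B C c lam x (ans D x l) := by
      rintro ⟨t, ⟨h6, -⟩, -⟩
      omega
    rw [or_iff_right h5]
    have h6 : DLast B C c lam x (ans D x l) ↔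
        FinalQ B C c lam x ((ans D x l).reverse ++ [false]) := by
      constructor
      · rintro ⟨-, z, ⟨h7, h8⟩, h9⟩
        rw [h8, h7] at h9
        exact h9
      · intro h7
        exact ⟨h3, ![(ans D x l).reverse, (ans D x l).reverse ++ [false]], ⟨rfl, rfl⟩, h7⟩
    rw [h6, finalQ_iff h (by simp [h3, hl]) (by rw [val_append_false, h4])]
  rw [key]
  exact pqueryF_of_protocol hD lam

end Pool.Agent.LibDual85
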