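import Pool.Agent.LibBHN.Mach

/-! Task LD-3: a parity language in polynomial time. -/

namespace Pool.Agent.LibDual85

open Function Pool.Agent.LibNexp Pool.Agent.LibBHN

/-- The machine. -/
private def parM : Mach :=
  [.pop false 1 2 3, .push true false 0, .push true true 0, .pop true 3 4 6, .pop true 6 5 6,
    .pop true 7 4 7, .halt false, .halt true]

/-- The result of the scan of the second stack in the states 4 (odd) and 5 (even). -/
private def parScan : Bool → List Bool → Bool
  | e, [] => e
  | e, false :: _ => e
  | e, true :: l => parScan (!e) l

private def parScan0 : List Bool → Bool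
  | [] => false
  | false :: l => parScan0 l
  | true :: l => parScan false l

private theorem par_transfer : ∀ (x y : List Bool),
    (parM.next)^[2 * x.length + 1] (0, x, y) = (3, [], x.reverse ++ y) := by
  intro x
  induction x with
  | nil => intro y; rfl
  | cons b x ih =>
    intro y
    have h1 : 2 * (b :: x).length + 1 = (2 * x.length + 1) + 2 := by
      rw [List.length_cons]; ring
    rw [h1, iterate_add_apply]
    have h2 : (parM.next)^[2] (0, b :: x, y) = (0, x, b :: y) := by
      cases b <;> rfl
    rw [h2, ih, List.reverse_cons, List.append_assoc]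
    rfl

private theorem par_scan : ∀ (y : List Bool) (e : Bool), ∃ t ≤ y.length + 1, ∃ y',
    (parM.next)^[t] (cond e 5 4, [], y) = (cond (parScan e y) 7 6, [], y') := by
  intro y
  induction y with
  | nil =>
    intro e
    refine ⟨1, by simp, [], ?_⟩
    cases e <;> rfl
  | cons b y ih =>
    intro e
    cases b with
    | false =>
      refine ⟨1, by simp, y, ?_⟩
      cases e <;> rfl
    | true =>
      obtain ⟨t, ht, y', h⟩ := ih (!e)
      refine ⟨t + 1, by simp; omega, y', ?_⟩
      rw [iterate_add_apply]
      have h2 : (parM.next)^[1] (cond e 5 4, [], true :: y) = (cond (!e) 5 4, [], y) := by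
        cases e <;> rfl
      rw [h2, h]
      rfl

private theorem par_scan0 : ∀ (y : List Bool), ∃ t ≤ y.length + 1, ∃ y',
    (parM.next)^[t] (3, [], y) = (cond (parScan0 y) 7 6, [], y') := by
  intro y
  induction y with
  | nil => exact ⟨1, by simp, [], rfl⟩
  | cons b y ih =>
    cases b with
    | false =>
      obtain ⟨t, ht, y', h⟩ := ih
      refine ⟨t + 1, by simp; omega, y', ?_⟩
      rw [iterate_add_apply]
      exact h
    | true =>
      obtain ⟨t, ht, y', h⟩ := par_scan y false
      refine ⟨t + 1, by simp; omega, y', ?_⟩
      rw [iterate_add_apply]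
      exact h

private theorem par_val : ∀ (n : ℕ) (e : Bool) (l : List Bool),
    parScan e (List.replicate n true ++ false :: l) = if Even n then e else !e := by
  intro n
  induction n with
  | zero => intro e l; simp [parScan]
  | succ n ih =>
    intro e l
    rw [List.replicate_succ, List.cons_append, parScan, ih]
    by_cases h : Even n
    · have : ¬ Even (n + 1) := by simp [Nat.even_add_one, h]
      rw [if_pos h, if_neg this]
    · have : Even (n + 1) := by simp [Nat.even_add_one, h]
      rw [if_neg h, if_pos this, Bool.not_not]

private theorem par_val0 (b : ℕ) (l : List Bool) :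
    parScan0 (List.replicate b false ++ l) = parScan0 l := by
  induction b with
  | zero => rfl
  | succ b ih => rw [List.replicate_succ, List.cons_append, parScan0, ih]

theorem exists_parLang : ∃ G ∈ PTime, ∀ (w : List Bool) (a b : ℕ), 1 ≤ a →
    (w ++ [false] ++ List.replicate a true ++ List.replicate b false ∈ G ↔ Even a) := by
  refine ⟨{x | parScan0 x.reverse = true}, ⟨parM, 5, fun x => ?_⟩, fun w a b ha => ?_⟩
  · obtain ⟨t, ht, y', h⟩ := par_scan0 x.reverse
    rw [List.length_reverse] at ht
    refine ⟨t + (2 * x.length + 1), ?_, parScan0 x.reverse, ?_, Iff.rfl⟩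
    · have h1 : 3 * x.length + 2 ≤ x.length ^ 5 + 5 := by
        rcases Nat.lt_or_ge x.length 2 with h2 | h2
        · interval_cases x.length <;> norm_num
        · have h3 : 2 ^ 4 ≤ x.length ^ 4 := Nat.pow_le_pow_left h2 4
          have h4 : x.length ^ 5 = x.length ^ 4 * x.length := by ring
          nlinarith
      omega
    · have h1 : parM.run x (t + (2 * x.length + 1)) = (cond (parScan0 x.reverse) 7 6, [], y') := by
        unfold Mach.run
        rw [iterate_add_apply, par_transfer, List.append_nil, h]
      rw [h1]
      cases parScan0 x.reverse <;> rfl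
  · show parScan0 _ = true ↔ _
    obtain ⟨n, rfl⟩ : ∃ n, a = n + 1 := ⟨a - 1, by omega⟩
    rw [List.reverse_append, List.reverse_append, List.reverse_append, List.reverse_replicate,
      List.reverse_replicate, par_val0, List.replicate_succ, List.reverse_singleton,
      List.singleton_append, List.cons_append, parScan0, par_val]
    by_cases h : Even n
    · simp [Nat.even_add_one, h]
    · simp [Nat.even_add_one, h]

end Pool.Agent.LibDual85
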