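import Pool.Agent.LibDual85.AdvA10
import Pool.Agent.LibDual85.AdvA9
import Pool.Agent.LibDual85.Ex
import Pool.Agent.LibDual85.Par
import Pool.Agent.LibDual85.Rev

/-! Task LD-12. -/

namespace Pool.Agent.LibDual85

open Function Pool.Agent.LibNexp Pool.Agent.LibBHN

variable {O : List Bool → Bool}

/-- The nonadaptive queries. -/
def TQ (B C : Lang) (c : ℕ) (lam : ℕ → ℕ) (x u : List Bool) : Prop :=
  ∃ z : Fin 3 → List Bool, ((z 2 = u ++ [true] ∧ val (z 1) = (z 0).length) ∧
    ((z 1).length = lam x.length + 1 ∧ val (z 1) ≤ nBad B C c lam x)) ∧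
    ((u.length = 2 * (z 0).length + 0 ∨ (z 2).length = 2 * (z 0).length + 0) ∨
      (u.length = 2 * (z 0).length + 1 ∧ FinalQ B C c lam x (z 1)))

theorem nexp_tQ {B C : Lang} (hB : B ∈ NEXPLang O) (hC : C ∈ NEXPLang O) (c : ℕ)
    {lam : ℕ → ℕ}
    (hlam : NEXP O fun e : Fin 2 → List Bool => (e 1).length = lam (e 0).length)
    (hlamp : PolyB lam) :
    NEXP O fun e : Fin 2 → List Bool => TQ B C c lam (e 0) (e 1) := by
  have h1 : NEXP O fun e : Fin 5 → List Bool =>
      ((e 4 = e 1 ++ [true] ∧ val (e 3) = (e 2).length) ∧
      ((e 3).length = lam (e 0).length + 1 ∧ val (e 3) ≤ nBad B C c lam (e 0))) ∧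
      (((e 1).length = 2 * (e 2).length + 0 ∨ (e 4).length = 2 * (e 2).length + 0) ∨
        ((e 1).length = 2 * (e 2).length + 1 ∧ FinalQ B C c lam (e 0) (e 3))) := by
    refine (((nexp_snoc true 1 4).and (nexp_valLen 3 2)).and
      (((nexp_threshQ hB hC c hlam).reindex ![0, 3]).congr fun e => ?_)).and
      (((nexp_lin 2 0 2 1).or (nexp_lin 2 0 2 4)).or ((nexp_lin 2 1 2 1).and
      (((nexp_finalQ hB hC c hlam hlamp).reindex ![0, 3]).congr fun e => ?_)))
    · simp
    · simp
  obtain ⟨d, hd⟩ := hlamp
  refine nexp_exN (k := 2) (m := 3) (R := fun e z =>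
      ((z 2 = e 1 ++ [true] ∧ val (z 1) = (z 0).length) ∧
      ((z 1).length = lam (e 0).length + 1 ∧ val (z 1) ≤ nBad B C c lam (e 0))) ∧
      (((e 1).length = 2 * (z 0).length + 0 ∨ (z 2).length = 2 * (z 0).length + 0) ∨
        ((e 1).length = 2 * (z 0).length + 1 ∧ FinalQ B C c lam (e 0) (z 1)))) h1
    (g := fun n => n ^ d + d + (n + 1)) ((PolyB.id.comp_pow d).add
      (PolyB.id.add (PolyB.const 1))) (fun m n h => ?_) ?_
  · have := Nat.pow_le_pow_left h d
    simp only
    omega
  rintro e z ⟨⟨⟨h2, -⟩, h3, -⟩, h4⟩ j
  have l0 := len_le_size e 0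
  have l1 := len_le_size e 1
  have b1 : lam (e 0).length ≤ size e ^ d + d :=
    (hd _).trans (Nat.add_le_add_right (Nat.pow_le_pow_left l0 d) d)
  have b2 := congrArg List.length h2
  simp only [List.length_append, List.length_cons, List.length_nil] at b2
  show _ ≤ size e ^ d + d + (size e + 1)
  fin_cases j
  · show (z 0).length ≤ _
    rcases h4 with (h4 | h4) | ⟨h4, -⟩ <;> omega
  · show (z 1).length ≤ _; omega
  · show (z 2).length ≤ _; omega

theorem tQ_iff {B C : Lang} {c : ℕ} {lam : ℕ → ℕ} (h : GoodAdv B C c lam) (x u : List Bool) :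
    TQ B C c lam x u ↔ u.length ≤ 2 * nBad B C c lam x ∨
      (u.length = 2 * nBad B C c lam x + 1 ∧ pair x (ans C x (x.length ^ c + c)) ∈ C) := by
  have hlt := nBad_lt h x
  constructor
  · rintro ⟨z, ⟨⟨h1, h2⟩, h3, h4⟩, (h5 | h5) | ⟨h5, h6⟩⟩
    · left; omega
    · have b1 := congrArg List.length h1
      simp only [List.length_append, List.length_cons, List.length_nil] at b1
      left; omega
    · rcases Nat.lt_or_ge (z 0).length (nBad B C c lam x) with h7 | h7
      · left; omega
      · have h8 : val (z 1) = nBad B C c lam x := by omega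
        right
        exact ⟨by omega, (finalQ_iff h h3 h8).1 h6⟩
  · have h0 : ∀ j ≤ nBad B C c lam x, j < 2 ^ (lam x.length + 1) := by
      intro j hj
      have h2 : 2 ^ lam x.length < 2 ^ (lam x.length + 1) :=
        Nat.pow_lt_pow_right (by norm_num) (by omega)
      omega
    rintro (h1 | ⟨h1, h2⟩)
    · rcases Nat.even_or_odd' u.length with ⟨j, h3 | h3⟩
      · have h4 := h0 j (by omega)
        refine ⟨![List.replicate j true, bits (lam x.length + 1) j, u ++ [true]],
          ⟨⟨rfl, ?_⟩, ?_, ?_⟩, Or.inl (Or.inl ?_)⟩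
        · show val (bits (lam x.length + 1) j) = (List.replicate j true).length
          rw [val_bits h4, List.length_replicate]
        · exact length_bits _ _
        · show val (bits (lam x.length + 1) j) ≤ _
          rw [val_bits h4]
          omega
        · show u.length = 2 * (List.replicate j true).length + 0
          rw [List.length_replicate]
          omega
      · have h4 := h0 (j + 1) (by omega)
        refine ⟨![List.replicate (j + 1) true, bits (lam x.length + 1) (j + 1), u ++ [true]],
          ⟨⟨rfl, ?_⟩, ?_, ?_⟩, Or.inl (Or.inr ?_)⟩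
        · show val (bits (lam x.length + 1) (j + 1)) = (List.replicate (j + 1) true).length
          rw [val_bits h4, List.length_replicate]
        · exact length_bits _ _
        · show val (bits (lam x.length + 1) (j + 1)) ≤ _
          rw [val_bits h4]
          omega
        · show (u ++ [true]).length = 2 * (List.replicate (j + 1) true).length + 0
          rw [List.length_replicate, List.length_append, List.length_singleton]
          omega
    · have h4 := h0 _ le_rfl
      refine ⟨![List.replicate (nBad B C c lam x) true,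
          bits (lam x.length + 1) (nBad B C c lam x), u ++ [true]],
        ⟨⟨rfl, ?_⟩, ?_, ?_⟩, Or.inr ⟨?_, ?_⟩⟩
      · show val (bits (lam x.length + 1) _) = (List.replicate _ true).length
        rw [val_bits h4, List.length_replicate]
      · exact length_bits _ _
      · show val (bits (lam x.length + 1) _) ≤ _
        rw [val_bits h4]
      · show u.length = 2 * (List.replicate _ true).length + 1
        rw [List.length_replicate]
        omega
      · show FinalQ B C c lam x (bits (lam x.length + 1) (nBad B C c lam x))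
        exact (finalQ_iff h (length_bits _ _) (val_bits h4)).2 h2

/-- Answers of nonadaptive monotone queries. -/
theorem ttAnswers_eq {D : Lang} {x : List Bool} {a : ℕ}
    (h : ∀ i, pair x (List.replicate i true) ∈ D ↔ i < a) :
    ∀ i, ttAnswers (fun x => x) D x i =
      List.replicate (min i a) true ++ List.replicate (i - a) false := by
  classical
  intro i
  induction i with
  | zero => simp [ttAnswers]
  | succ i ih =>
    rw [ttAnswers, ih]
    have h1 : decide (pair x (List.replicate i true) ∈ D) = decide (i < a) :=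
      decide_eq_decide.2 (h i)
    rcases Nat.lt_or_ge i a with h2 | h2
    · have h3 : min i a = i := by omega
      have h4 : min (i + 1) a = i + 1 := by omega
      have h5 : i - a = 0 := by omega
      have h6 : i + 1 - a = 0 := by omega
      rw [h3, h4, h5, h6, List.replicate_zero, List.append_nil, List.append_nil,
        List.replicate_succ']
      congr 2
      rw [h1]
      exact decide_eq_true h2
    · have h3 : min i a = a := by omega
      have h4 : min (i + 1) a = a := by omega
      have h6 : i + 1 - a = (i - a) + 1 := by omega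
      rw [h3, h4, h6, List.append_assoc, List.replicate_succ' (n := i - a)]
      congr 3
      rw [h1]
      exact decide_eq_false (by omega)

theorem ptt_of_good {B C : Lang} (hB : B ∈ NEXPLang O) (hC : C ∈ NEXPLang O) (c : ℕ)
    {lam : ℕ → ℕ}
    (hlam : NEXP O fun e : Fin 2 → List Bool => (e 1).length = lam (e 0).length)
    (hlamp : PolyB lam) (h : GoodAdv B C c lam)
    (hpoly : ∃ d, ∀ n, 2 ^ lam n ≤ n ^ d + d) :
    {x | pair x (ans C x (x.length ^ c + c)) ∈ C} ∈ PTt (NEXPLang O) := by
  classical
  obtain ⟨D, hD, hDR⟩ := rel_of_nexp (C := fun x u => TQ B C c lam x u) (O := O)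
    (nexp_tQ hB hC c hlam hlamp)
  obtain ⟨G, hG, hGR⟩ := exists_parLang
  obtain ⟨d, hd⟩ := hpoly
  obtain ⟨c', hc'⟩ : PolyB fun n => 2 * (n ^ d + d) + 2 :=
    ((PolyB.const 2).mul (PolyB.id.comp_pow d)).add (PolyB.const 2)
  refine ⟨D, hD, fun x => x, id_mem, G, hG, c', fun x => ?_⟩
  have hlt := nBad_lt h x
  have h1 := hd x.length
  have h2 := hc' x.length
  simp only at h2
  rw [Set.mem_ofPred_eq]
  have h0 : ∃ a, 1 ≤ a ∧ a ≤ x.length ^ c' + c' ∧
      (∀ i, pair x (List.replicate i true) ∈ D ↔ i < a) ∧
      (Even a ↔ pair x (ans C x (x.length ^ c + c)) ∈ C) := by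
    by_cases hx : pair x (ans C x (x.length ^ c + c)) ∈ C
    · refine ⟨2 * nBad B C c lam x + 2, by omega, by omega, fun i => ?_, ?_⟩
      · rw [hDR, tQ_iff h, List.length_replicate]
        constructor
        · rintro (h3 | ⟨h3, -⟩) <;> omega
        · intro h3
          rcases Nat.lt_or_ge i (2 * nBad B C c lam x + 1) with h4 | h4
          · left; omega
          · right; exact ⟨by omega, hx⟩
      · exact ⟨fun _ => hx, fun _ => ⟨nBad B C c lam x + 1, by ring⟩⟩
    · refine ⟨2 * nBad B C c lam x + 1, by omega, by omega, fun i => ?_, ?_⟩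
      · rw [hDR, tQ_iff h, List.length_replicate]
        constructor
        · rintro (h3 | ⟨-, h3⟩)
          · omega
          · exact absurd h3 hx
        · intro h3
          left; omega
      · constructor
        · intro h3
          exfalso
          rw [Nat.even_iff] at h3
          omega
        · intro h3
          exact absurd h3 hx
  obtain ⟨a, ha1, ha2, ha3, ha4⟩ := h0
  rw [ttAnswers_eq ha3, ← ha4, min_eq_right ha2]
  have h5 : pair x (List.replicate a true ++ List.replicate (x.length ^ c' + c' - a) false) =
      ((x.flatMap fun b => [b, b]) ++ [true]) ++ [false] ++ List.replicate a true ++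
        List.replicate (x.length ^ c' + c' - a) false := by
    unfold pair
    simp only [List.append_assoc, List.cons_append, List.nil_append]
  rw [h5]
  exact (hGR _ _ _ ha1).symm

end Pool.Agent.LibDual85
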