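import Pool.Agent.LibDual85.AdvBDefs
import Pool.Agent.LibDual85.Fact19

/-! Task LD-24. -/

namespace Pool.Agent.LibDual85

open Function Pool.Agent.LibNexp Pool.Agent.LibBHN

variable {O : List Bool → Bool}

variable {F G K : Lang} {key : List Bool → List Bool} {rho mm : ℕ → ℕ}

private theorem advB24_len (h : Prot O F G key rho mm) :
    NEXP O fun e : Fin 2 → List Bool => (e 1).length = mm (e 0).length + 1 := by
  have h4 : NEXP O fun e : Fin 3 → List Bool => (e 1).length = 1 * (e 2).length + 1 ∧
      (e 2).length = mm (e 0).length :=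
    (nexp_lin 1 1 2 1).and ((h.hmm.reindex ![0, 2]).congr fun e => by simp)
  have h5 := nexp_ex (R := fun (e : Fin 2 → List Bool) v => (e 1).length = 1 * v.length + 1 ∧
      v.length = mm (e 0).length) h4 (g := fun n => n) PolyB.id (by
        rintro e v ⟨h, -⟩
        have := len_le_size e 1
        omega)
  refine h5.congr fun e => ?_
  constructor
  · rintro ⟨v, h6, h7⟩
    omega
  · intro h6
    exact ⟨List.replicate (mm (e 0).length) false, by simp; omega, by simp⟩

private theorem advB24_pad : NEXP O fun e : Fin 2 → List Bool =>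
    ∃ z : List Bool, e 1 = e 0 ++ z ∧ z = z.flatMap fun _ => [false] := by
  have h1 : NEXP O fun e : Fin 3 → List Bool => e 2 = (e 2).flatMap fun _ => [false] := by
    refine ((nexp_subst (O := O) (fun _ => [false]) (fun _ => []) []).reindex
      ![2, 2, 2]).congr fun e => ?_
    simp [misc_flatMap_nil]
  have h2 : NEXP O fun e : Fin 3 → List Bool => e 1 = e 0 ++ e 2 ∧
      e 2 = (e 2).flatMap fun _ => [false] := (nexp_append 0 2 1).and h1
  exact nexp_ex (R := fun (e : Fin 2 → List Bool) z => e 1 = e 0 ++ z ∧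
    z = z.flatMap fun _ => [false]) h2 (g := fun n => n) PolyB.id (by
      rintro e z ⟨h, -⟩
      have := len_le_size e 1
      rw [h, List.length_append] at this
      omega)

private theorem advB24_reach (h : Prot O F G key rho mm) :
    NEXP O fun e : Fin 3 → List Bool =>
      Relation.ReflTransGen (CStep F G key rho mm (e 0).length (e 1)) [] (e 2) := by
  have h1 := nexp_reach (k := 2) (S := fun e a b => CStep F G key rho mm (e 0).length (e 1) a b)
    (nexp_cstep h) (g := fun n => n + 1) PolyB.id.succ (fun a b hab => Nat.succ_le_succ hab) (by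
      rintro e a b ⟨hb, -⟩
      have := len_le_size e 0
      show _ ≤ size e + 1
      omega)
  have h2 : NEXP O fun e : Fin 4 → List Bool => e 3 = [] ∧
      Relation.ReflTransGen (CStep F G key rho mm (e 0).length (e 1)) (e 3) (e 2) :=
    (nexp_const [] 3).and ((h1.reindex ![0, 1, 3, 2]).congr fun e => Iff.rfl)
  have h3 := nexp_ex (R := fun (e : Fin 3 → List Bool) s => s = [] ∧
      Relation.ReflTransGen (CStep F G key rho mm (e 0).length (e 1)) s (e 2)) h2
      (g := fun n => n) PolyB.id (by
        rintro e z ⟨rfl, -⟩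
        simp)
  refine h3.congr fun e => ?_
  simp

private theorem advB24_count (hK : K ∈ NEXPLang O) :
    NEXP O fun e : Fin 2 → List Bool => ∃ n, (e 1).length = n + 1 ∧
      val (e 1) ≤ cnt n fun y => y ∈ K ∧ y ≠ e 0 :=
  nexp_count (k := 1) (R := fun e y => y ∈ K ∧ y ≠ e 0) ((nexp_mem hK 1).and (nexp_ne 1 0))

theorem nexp_relB (h : Prot O F G key rho mm) (hK : K ∈ NEXPLang O) :
    NEXP O fun e : Fin 2 → List Bool => RelB F G K key rho mm (e 0) (e 1) := by
  obtain ⟨c, hc⟩ := h.hmmp
  have h1 : NEXP O fun e : Fin 4 → List Bool => ((e 2).length = mm (e 0).length + 1 ∧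
      ∃ z, e 2 = e 1 ++ z ∧ z = z.flatMap fun _ => [false]) ∧
      (e 3).length = 1 * (e 0).length + 1 ∧
      Relation.ReflTransGen (CStep F G key rho mm (e 0).length (e 2)) [] (e 3) ∧
      ∃ n, (e 3).length = n + 1 ∧ val (e 3) ≤ cnt n fun y => y ∈ K ∧ y ≠ e 0 := by
    refine NEXP.and (NEXP.and ?_ ?_) (NEXP.and (nexp_lin 1 1 0 3) (NEXP.and ?_ ?_))
    · exact ((advB24_len h).reindex ![0, 2]).congr fun e => Iff.rfl
    · exact (advB24_pad.reindex ![1, 2]).congr fun e => Iff.rfl
    · exact ((advB24_reach h).reindex ![0, 2, 3]).congr fun e => Iff.rfl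
    · exact ((advB24_count hK).reindex ![0, 3]).congr fun e => Iff.rfl
  have h2 := nexp_ex2 (R := fun (e : Fin 2 → List Bool) t w =>
      (t.length = mm (e 0).length + 1 ∧
      ∃ z, t = e 1 ++ z ∧ z = z.flatMap fun _ => [false]) ∧
      w.length = 1 * (e 0).length + 1 ∧
      Relation.ReflTransGen (CStep F G key rho mm (e 0).length t) [] w ∧
      ∃ n, w.length = n + 1 ∧ val w ≤ cnt n fun y => y ∈ K ∧ y ≠ e 0) h1
      (g := fun n => (n ^ c + c) + (n + 2))
      (((PolyB.id.pow c).add (PolyB.const c)).add (PolyB.id.add (PolyB.const 2)))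
      (fun a b hab => by
        have := Nat.pow_le_pow_left hab c
        show (a ^ c + c) + (a + 2) ≤ (b ^ c + c) + (b + 2)
        omega) (by
      rintro e t w ⟨⟨ht, -⟩, hw, -⟩
      have h3 := len_le_size e 0
      have h4 := hc (e 0).length
      have h5 := Nat.pow_le_pow_left h3 c
      show _ ≤ (size e ^ c + c) + (size e + 2) ∧ _ ≤ (size e ^ c + c) + (size e + 2)
      omega)
  refine h2.congr fun e => ?_
  unfold RelB
  constructor
  · rintro ⟨t, w, h3, h4, h5, n, h6, h7⟩
    have hn : n = (e 0).length := by omega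
    subst hn
    exact ⟨t, w, h3, h6, h5, h7⟩
  · rintro ⟨t, w, h3, h4, h5, h6⟩
    exact ⟨t, w, h3, by omega, h5, (e 0).length, h4, h6⟩

end Pool.Agent.LibDual85
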