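import Pool.Agent.LibBHN.Count
import Pool.Agent.LibBHN.PoracleB
import Pool.Agent.LibDual85.Search

/-! The bits of the census. -/

namespace Pool.Agent.LibDual85

open Function Pool.Agent.LibNexp Pool.Agent.LibBHN

variable {O : List Bool → Bool}

/-- The bits of the census of `K`. -/
def BitLang (K : Lang) : Lang :=
  {x | ∃ u v : List Bool, x = pair u v ∧
    (bits (u.length + 1) (cnt u.length fun y => y ∈ K))[v.length]? = some true}

theorem zeros_flat (n : ℕ) :
    List.replicate n false = (List.replicate n false).flatMap fun _ => [false] := by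
  induction n with
  | zero => rfl
  | succ n ih => rw [List.replicate_succ, List.flatMap_cons, ← ih]; rfl

theorem flat_zeros {w : List Bool} (hw : w = w.flatMap (fun _ => [false])) :
    w = List.replicate w.length false := by
  have : ∀ w : List Bool, w.flatMap (fun _ => [false]) = List.replicate w.length false := by
    intro w
    induction w with
    | nil => rfl
    | cons b w ih => simp [List.replicate_succ, ih]
  rw [← this w]
  exact hw

/-- The threshold queries. -/
def BitQ (K : Lang) (x α : List Bool) : Prop :=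
  ∃ z : Fin 6 → List Bool, ((x = pair (z 0) (z 1) ∧ z 2 = (z 2).flatMap (fun _ => [false])) ∧
    (z 3 = z 2 ++ α ∧ (z 0).length = 1 * (z 3).length + 0)) ∧
    ((z 4 = α.reverse ∧ z 5 = z 2 ++ [true] ++ z 4) ∧
      ∃ n, (z 5).length = n + 1 ∧ val (z 5) ≤ cnt n fun y => y ∈ K)

/-- The last query. -/
def BitF (x α : List Bool) : Prop :=
  ∃ z : Fin 7 → List Bool, ((x = pair (z 0) (z 1) ∧ α = z 2 ++ z 3) ∧
    ((z 2).length = 1 * (z 0).length + 1 ∧ z 4 = (z 2).reverse)) ∧
    (z 4 = z 5 ++ [true] ++ z 6 ∧ (z 5).length = 1 * (z 1).length + 0)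

theorem nexp_bitQ {K : Lang} (hK : K ∈ NEXPLang O) :
    NEXP O fun e : Fin 2 → List Bool => BitQ K (e 0) (e 1) := by
  have hc : NEXP O fun e : Fin 1 → List Bool => ∃ n, (e 0).length = n + 1 ∧
      val (e 0) ≤ cnt n fun y => y ∈ K := by
    have := nexp_count (O := O) (k := 0) (R := fun _ y => y ∈ K) (nexp_mem hK _)
    exact this
  -- x, α | u, v, z, s, r, t
  have h1 : NEXP O fun e : Fin 8 → List Bool => ((e 0 = pair (e 2) (e 3) ∧
      e 4 = (e 4).flatMap (fun _ => [false])) ∧
      (e 5 = e 4 ++ e 1 ∧ (e 2).length = 1 * (e 5).length + 0)) ∧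
      ((e 6 = (e 1).reverse ∧ e 7 = e 4 ++ [true] ++ e 6) ∧
      ∃ n, (e 7).length = n + 1 ∧ val (e 7) ≤ cnt n fun y => y ∈ K) := by
    refine (((nexp_pair 2 3 0).and (nexp_zeros 4)).and ((nexp_append 4 1 5).and
      (nexp_lin 1 0 5 2))).and (((nexp_rev 1 6).and (nexp_mid [true] 4 6 7)).and
      ((hc.reindex ![7]).congr fun e => ?_))
    simp
  refine nexp_exN (k := 2) (m := 6) (R := fun e z => ((e 0 = pair (z 0) (z 1) ∧
    z 2 = (z 2).flatMap (fun _ => [false])) ∧
    (z 3 = z 2 ++ e 1 ∧ (z 0).length = 1 * (z 3).length + 0)) ∧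
    ((z 4 = (e 1).reverse ∧ z 5 = z 2 ++ [true] ++ z 4) ∧
      ∃ n, (z 5).length = n + 1 ∧ val (z 5) ≤ cnt n fun y => y ∈ K)) h1
    (g := fun n => 2 * n + 1) (((PolyB.const 2).mul PolyB.id).add (PolyB.const 1))
    (fun m n h => by simp only; omega) ?_
  rintro e z ⟨⟨⟨a1, a2⟩, a3, a4⟩, ⟨a5, a6⟩, -⟩ j
  have l0 := len_le_size e 0
  have l1 := len_le_size e 1
  have b1 := congrArg List.length a1
  have b3 := congrArg List.length a3
  have b5 := congrArg List.length a5
  have b6 := congrArg List.length a6
  rw [length_pair] at b1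
  simp only [List.length_reverse, List.length_append, List.length_cons, List.length_nil] at b3 b5 b6
  show _ ≤ 2 * size e + 1
  fin_cases j
  · show (z 0).length ≤ _; omega
  · show (z 1).length ≤ _; omega
  · show (z 2).length ≤ _; omega
  · show (z 3).length ≤ _; omega
  · show (z 4).length ≤ _; omega
  · show (z 5).length ≤ _; omega

theorem nexp_bitF : NEXP O fun e : Fin 2 → List Bool => BitF (e 0) (e 1) := by
  have h1 : NEXP O fun e : Fin 9 → List Bool => ((e 0 = pair (e 2) (e 3) ∧ e 1 = e 4 ++ e 5) ∧
      ((e 4).length = 1 * (e 2).length + 1 ∧ e 6 = (e 4).reverse)) ∧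
      (e 6 = e 7 ++ [true] ++ e 8 ∧ (e 7).length = 1 * (e 3).length + 0) :=
    (((nexp_pair 2 3 0).and (nexp_append 4 5 1)).and ((nexp_lin 1 1 2 4).and
      (nexp_rev 4 6))).and ((nexp_mid [true] 7 8 6).and (nexp_lin 1 0 3 7))
  refine nexp_exN (k := 2) (m := 7) (R := fun e z => ((e 0 = pair (z 0) (z 1) ∧
    e 1 = z 2 ++ z 3) ∧ ((z 2).length = 1 * (z 0).length + 1 ∧ z 4 = (z 2).reverse)) ∧
    (z 4 = z 5 ++ [true] ++ z 6 ∧ (z 5).length = 1 * (z 1).length + 0)) h1
    (g := fun n => n) PolyB.id monotone_id ?_
  rintro e z ⟨⟨⟨a1, a2⟩, a3, a4⟩, a5, -⟩ j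
  have l0 := len_le_size e 0
  have l1 := len_le_size e 1
  have b1 := congrArg List.length a1
  have b3 := congrArg List.length a2
  have b5 := congrArg List.length a4
  have b6 := congrArg List.length a5
  rw [length_pair] at b1
  simp only [List.length_reverse, List.length_append, List.length_cons, List.length_nil] at b3 b5 b6
  show _ ≤ size e
  fin_cases j
  · show (z 0).length ≤ _; omega
  · show (z 1).length ≤ _; omega
  · show (z 2).length ≤ _; omega
  · show (z 3).length ≤ _; omega
  · show (z 4).length ≤ _; omega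
  · show (z 5).length ≤ _; omega
  · show (z 6).length ≤ _; omega

theorem bitQ_iff {K : Lang} {u v α : List Bool} :
    BitQ K (pair u v) α ↔ α.length ≤ u.length ∧
      val (thr (u.length + 1) α) ≤ cnt u.length fun y => y ∈ K := by
  constructor
  · rintro ⟨z, ⟨⟨a1, a2⟩, a3, a4⟩, ⟨a5, a6⟩, n, a7, a8⟩
    obtain ⟨rfl, rfl⟩ := pair_injective a1
    have b3 := congrArg List.length a3
    rw [List.length_append] at b3
    have b6 := congrArg List.length a6
    rw [a5] at b6
    simp only [List.length_append, List.length_reverse, List.length_cons, List.length_nil] at b6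
    have hn : n = (z 0).length := by omega
    subst hn
    refine ⟨by omega, ?_⟩
    have h1 : thr ((z 0).length + 1) α = z 5 ++ [false] := by
      unfold thr
      rw [a6, a5, flat_zeros a2]
      have : (z 2).length = (z 0).length + 1 - 1 - α.length := by omega
      rw [this]
    rw [h1, val_append_false]
    exact a8
  · rintro ⟨h1, h2⟩
    refine ⟨![u, v, List.replicate (u.length - α.length) false,
      List.replicate (u.length - α.length) false ++ α, α.reverse,
      List.replicate (u.length - α.length) false ++ [true] ++ α.reverse],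
      ⟨⟨rfl, zeros_flat _⟩, rfl, ?_⟩, ⟨rfl, rfl⟩, u.length, ?_, ?_⟩
    · show u.length = 1 * (List.replicate (u.length - α.length) false ++ α).length + 0
      simp
      omega
    · show (List.replicate (u.length - α.length) false ++ [true] ++ α.reverse).length = _
      simp
      omega
    · show val (List.replicate (u.length - α.length) false ++ [true] ++ α.reverse) ≤ _
      unfold thr at h2
      rw [val_append_false] at h2
      have : u.length + 1 - 1 - α.length = u.length - α.length := by omega
      rwa [this] at h2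

theorem bitF_iff {u v α : List Bool} (h : u.length + 1 ≤ α.length) :
    BitF (pair u v) α ↔ ((α.take (u.length + 1)).reverse)[v.length]? = some true := by
  constructor
  · rintro ⟨z, ⟨⟨a1, a2⟩, a3, a4⟩, a5, a6⟩
    obtain ⟨rfl, rfl⟩ := pair_injective a1
    have h1 : α.take ((z 0).length + 1) = z 2 := by
      rw [a2, List.take_append_of_le_length (by omega)]
      rw [List.take_of_length_le (by omega)]
    rw [h1, ← a4, a5]
    have : (z 1).length = (z 5).length := by omega
    rw [this, List.append_assoc, List.getElem?_append_right le_rfl]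
    simp
  · intro h1
    obtain ⟨h2, h3⟩ := List.getElem?_eq_some_iff.1 h1
    refine ⟨![u, v, α.take (u.length + 1), α.drop (u.length + 1), (α.take (u.length + 1)).reverse,
      ((α.take (u.length + 1)).reverse).take v.length,
      ((α.take (u.length + 1)).reverse).drop (v.length + 1)],
      ⟨⟨rfl, (List.take_append_drop _ _).symm⟩, ?_, rfl⟩, ?_, ?_⟩
    · show (α.take (u.length + 1)).length = 1 * u.length + 1
      rw [List.length_take]
      omega
    · show (α.take (u.length + 1)).reverse = ((α.take (u.length + 1)).reverse).take v.length ++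
        [true] ++ ((α.take (u.length + 1)).reverse).drop (v.length + 1)
      rw [← h3, List.append_assoc, List.singleton_append, List.getElem_cons_drop,
        List.take_append_drop]
    · show (((α.take (u.length + 1)).reverse).take v.length).length = 1 * v.length + 0
      rw [List.length_take]
      omega

theorem ans_take (C : Lang) (x : List Bool) {i j : ℕ} (h : i ≤ j) :
    (ans C x j).take i = ans C x i := by
  induction j, h using Nat.le_induction with
  | base => rw [List.take_of_length_le (by simp)]
  | succ j hj ih =>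
    rw [ans, List.take_append_of_le_length (by simpa using hj), ih]

theorem bitLang_mem {K : Lang} (hK : K ∈ NEXPLang O) : BitLang K ∈ POracle (NEXPLang O) := by
  classical
  apply pnexp_subset
  obtain ⟨C, hC, hCR⟩ := rel_of_nexp (C := fun x α => BitQ K x α ∨ BitF x α) (O := O)
    ((nexp_bitQ hK).or nexp_bitF)
  refine ⟨C, hC, 1, fun x => ?_⟩
  by_cases hx : ∃ u v, x = pair u v
  · obtain ⟨u, v, rfl⟩ := hx
    set n := u.length with hn
    set N := cnt n fun y => y ∈ K with hN
    have hlt : N < 2 ^ (n + 1) := by
      have := cnt_le n fun y => y ∈ K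
      have h2 : 2 ^ n < 2 ^ (n + 1) := Nat.pow_lt_pow_right (by norm_num) (by omega)
      omega
    have hF : ∀ α : List Bool, α.length ≤ n → ¬ BitF (pair u v) α := by
      rintro α h1 ⟨z, ⟨⟨a1, a2⟩, a3, a4⟩, a5, a6⟩
      obtain ⟨rfl, rfl⟩ := pair_injective a1
      have := congrArg List.length a2
      rw [List.length_append] at this
      omega
    have hs : ∀ i < n + 1, ans C (pair u v) (i + 1) = ans C (pair u v) i ++
        [decide (val (thr (n + 1) (ans C (pair u v) i)) ≤ N)] := by
      intro i hi
      rw [ans]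
      congr 2
      have h1 : (ans C (pair u v) i).length ≤ n := by rw [length_ans]; omega
      have h2 : pair (pair u v) (ans C (pair u v) i) ∈ C ↔
          val (thr (n + 1) (ans C (pair u v) i)) ≤ N := by
        rw [hCR, bitQ_iff]
        constructor
        · rintro (h3 | h3)
          · exact h3.2
          · exact absurd h3 (hF _ h1)
        · intro h3
          exact Or.inl ⟨h1, h3⟩
      simp only [h2]
    obtain ⟨h3, h4⟩ := search hlt (a := ans C (pair u v)) rfl hs (n + 1) le_rfl
    rw [Nat.sub_self, pow_zero, Nat.div_one] at h4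
    have h5 : (ans C (pair u v) (n + 1)).reverse = bits (n + 1) N := by
      refine val_inj ?_ ?_
      · rw [List.length_reverse, h3, length_bits]
      · rw [h4, val_bits hlt]
    have hr : n + 1 ≤ (pair u v).length ^ 1 + 1 := by
      rw [pow_one, length_pair]
      omega
    rw [hCR]
    have h6 : ¬ BitQ K (pair u v) (ans C (pair u v) ((pair u v).length ^ 1 + 1)) := by
      rw [bitQ_iff, length_ans]
      rintro ⟨h7, -⟩
      omega
    rw [or_iff_right h6, bitF_iff (by rw [length_ans]; exact hr), ans_take C _ hr, h5]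
    constructor
    · rintro ⟨u', v', h7, h8⟩
      obtain ⟨rfl, rfl⟩ := pair_injective h7
      exact h8
    · intro h7
      exact ⟨u, v, rfl, h7⟩
  · rw [hCR]
    constructor
    · rintro ⟨u, v, rfl, -⟩
      exact absurd ⟨u, v, rfl⟩ hx
    · rintro (⟨z, ⟨⟨h1, -⟩, -⟩, -⟩ | ⟨z, ⟨⟨h1, -⟩, -⟩, -⟩)
      · exact absurd ⟨_, _, h1⟩ hx
      · exact absurd ⟨_, _, h1⟩ hx

end Pool.Agent.LibDual85
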