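import Pool.Agent.LibDual85.Fact21

/-! Task LD-22. -/

namespace Pool.Agent.LibDual85

open Function Pool.Agent.LibNexp Pool.Agent.LibBHN

variable {O : List Bool → Bool}

variable {F G : Lang} {key : List Bool → List Bool} {rho mm : ℕ → ℕ}

theorem census_iff (h : Prot O F G key rho mm) {n N : ℕ} (hN : N < 2 ^ (n + 1)) {t : List Bool}
    (htl : t.length = mm n + 1) (ht : val t = cnt (mm n) (FSet F key rho n))
    (hbits : ∀ i ≤ n, (bits (n + 1) N)[i]? = some true ↔
      pair (inp n i) (kans F key (inp n i) (rho (inp n i).length)) ∈ G) (w : List Bool) :
    (w.length = n + 1 ∧ Relation.ReflTransGen (CStep F G key rho mm n t) [] w) ↔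
      w = bits (n + 1) N := by
  set B := bits (n + 1) N with hB
  have hBl : B.length = n + 1 := length_bits _ _
  have hbit : ∀ (i : ℕ) (hi : i ≤ n) (b : Bool), BitC F G key rho mm n t (ones i) b ↔
      b = B[i]'(by omega) := by
    intro i hi b
    rw [bitC_iff h hi htl ht b, ← hbits i hi]
    have hiB : i < B.length := by omega
    rw [List.getElem?_eq_getElem hiB]
    cases b <;> cases hb : B[i] <;> simp [hb]
  have htake : ∀ i (hi : i ≤ n), B.take (i + 1) = B.take i ++ [B[i]'(by omega)] := by
    intro i hi
    rw [List.take_succ_eq_append_getElem (by omega)]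
  have hrun : ∀ v, Relation.ReflTransGen (CStep F G key rho mm n t) [] v → v = B.take v.length := by
    intro v hv
    induction hv with
    | refl => simp
    | @tail u u' _ hs ih =>
      obtain ⟨hl, b, rfl, hb⟩ := hs
      have hu : u.length ≤ n := by
        rw [List.length_append, List.length_singleton] at hl
        omega
      rw [hbit _ hu] at hb
      rw [List.length_append, List.length_singleton, htake _ hu, ← ih, ← hb]
  have hreach : ∀ j ≤ n + 1, Relation.ReflTransGen (CStep F G key rho mm n t) [] (B.take j) := by
    intro j
    induction j with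
    | zero => intro _; simpa using Relation.ReflTransGen.refl
    | succ j ih =>
      intro hj
      have hjl : (B.take j).length = j := by rw [List.length_take]; omega
      refine (ih (by omega)).tail ⟨by rw [List.length_take]; omega, B[j]'(by omega),
        htake j (by omega), ?_⟩
      rw [hjl]
      exact (hbit j (by omega) _).mpr rfl
  constructor
  · rintro ⟨hl, hr⟩
    have := hrun w hr
    rw [hl, ← hBl, List.take_length] at this
    exact this
  · rintro rfl
    refine ⟨hBl, ?_⟩
    have := hreach (n + 1) le_rfl
    rw [← hBl, List.take_length] at this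
    exact this

end Pool.Agent.LibDual85
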