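import Pool.Agent.LibDual85.Fact

/-! Task LD-23. -/

namespace Pool.Agent.LibDual85

open Function Pool.Agent.LibNexp Pool.Agent.LibBHN

variable {O : List Bool → Bool}

variable {F G : Lang} {key : List Bool → List Bool} {rho mm : ℕ → ℕ}

theorem cnt_fset_le {n : ℕ} {κ : ℕ → ℕ}
    (hκ : ∀ m, {γ | ∃ β : List Bool, β.length < rho m ∧ γ = key β}.ncard ≤ κ m)
    (hfin : ∀ m, {γ | ∃ β : List Bool, β.length < rho m ∧ γ = key β}.Finite) :
    cnt (mm n) (FSet F key rho n) ≤ ∑ i ∈ Finset.range (n + 1), κ (inp n i).length := by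
  classical
  obtain ⟨g, hg⟩ : ∃ g : ℕ → List Bool → List Bool, ∀ i γ, g i γ = pair (inp n i) γ ++
      true :: List.replicate (mm n - (pair (inp n i) γ).length - 1) false := ⟨_, fun _ _ => rfl⟩
  have h1 : cnt (mm n) (FSet F key rho n) ≤ ((Finset.range (n + 1)).biUnion fun i =>
      (hfin (inp n i).length).toFinset.image (g i)).card := by
    unfold cnt
    refine Finset.card_le_card_of_injOn (bits (mm n)) ?_ ?_
    · intro a ha
      rw [Finset.mem_coe, Finset.mem_filter] at ha
      obtain ⟨_, i, hi, β, hβ, z, ⟨j, hz⟩, hy, _⟩ := ha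
      rw [Finset.mem_coe, Finset.mem_biUnion]
      refine ⟨i, Finset.mem_range.2 (by omega), Finset.mem_image.2 ⟨key β, ?_, ?_⟩⟩
      · rw [Set.Finite.mem_toFinset]
        exact ⟨β, hβ, rfl⟩
      · rw [hg, hy, hz]
        have h2 := congrArg List.length hy
        rw [length_bits, hz, List.length_append, List.length_cons, List.length_replicate] at h2
        have h3 : mm n - (pair (inp n i) (key β)).length - 1 = j := by omega
        rw [h3]
    · intro a ha b hb hab
      rw [Finset.mem_coe, Finset.mem_filter, Finset.mem_range] at ha hb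
      have h2 := congrArg val hab
      rwa [val_bits ha.1, val_bits hb.1] at h2
  refine h1.trans (Finset.card_biUnion_le.trans (Finset.sum_le_sum fun i _ => ?_))
  refine Finset.card_image_le.trans ?_
  rw [← Set.ncard_eq_toFinset_card _ (hfin (inp n i).length)]
  exact hκ _

end Pool.Agent.LibDual85
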