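import Pool.Agent.LibDual85.AdvB24
import Pool.Agent.LibDual85.AdvB25
import Pool.Agent.LibDual85.Fact23

/-! Task LD-26. -/

namespace Pool.Agent.LibDual85

open Function Pool.Agent.LibNexp Pool.Agent.LibBHN

variable {O : List Bool → Bool}

variable {F G K : Lang} {key : List Bool → List Bool} {rho mm : ℕ → ℕ}

theorem advice_of_prot (h : Prot O F G key rho mm) (hK : K ∈ NEXPLang O)
    (hL : ∀ x, x ∈ BitLang K ↔ pair x (kans F key x (rho x.length)) ∈ G) {κ : ℕ → ℕ}
    (hκ : ∀ m, {γ | ∃ β : List Bool, β.length < rho m ∧ γ = key β}.ncard ≤ κ m)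
    (hfin : ∀ m, {γ | ∃ β : List Bool, β.length < rho m ∧ γ = key β}.Finite) :
    Kᶜ ∈ WithAdvice (NEXPLang O) {f | ∀ n, (f n).length ≤
      Nat.log 2 (∑ i ∈ Finset.range (n + 1), κ (inp n i).length) + 1} := by
  obtain ⟨B, hB, hBR⟩ := rel_of_nexp (C := RelB F G K key rho mm) (O := O) (nexp_relB h hK)
  set Y : ℕ → ℕ := fun n => cnt (mm n) (FSet F key rho n) with hY
  refine ⟨B, hB, fun n => bits (Nat.log 2 (Y n) + 1) (Y n), fun n => ?_, ?_⟩
  · rw [length_bits]
    exact Nat.add_le_add_right (Nat.log_mono_right (cnt_fset_le hκ hfin)) 1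
  · ext x
    rw [Set.mem_compl_iff, Set.mem_ofPred_eq, hBR]
    refine (relB_iff h hL ?_ ?_).symm
    · rw [length_bits]
      refine Nat.add_le_add_right ?_ 1
      have h1 : Y x.length ≤ 2 ^ mm x.length := cnt_le _ _
      calc Nat.log 2 (Y x.length) ≤ Nat.log 2 (2 ^ mm x.length) := Nat.log_mono_right h1
        _ = mm x.length := Nat.log_pow (by norm_num) _
    · exact val_bits (Nat.lt_pow_succ_log_self (by norm_num) _)

end Pool.Agent.LibDual85
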