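import Pool.Agent.LibBHN.CountA
import Pool.Agent.LibDual85.Defs
import Pool.Agent.LibNexp.PowLaw

/-! The set of facts of a protocol on the inputs `⟨1^n, 1^i⟩`, `i ≤ n`: definitions. -/

namespace Pool.Agent.LibDual85

open Function Pool.Agent.LibNexp Pool.Agent.LibBHN

variable {O : List Bool → Bool}

/-- The input number `i` at the scale `n`. -/
def inp (n i : ℕ) : List Bool := pair (ones n) (ones i)

/-- The padded true facts at the scale `n`. -/
def FSet (F : Lang) (key : List Bool → List Bool) (rho : ℕ → ℕ) (n : ℕ) (y : List Bool) : Prop :=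
  ∃ i ≤ n, ∃ β : List Bool, β.length < rho (inp n i).length ∧
    ∃ z, IsPad z ∧ y = pair (inp n i) (key β) ++ z ∧ pair (inp n i) (key β) ∈ F

/-- A certificate that `q` is not a fact, given the number of facts `val t`. -/
def NoCert (F : Lang) (key : List Bool → List Bool) (rho mm : ℕ → ℕ) (n : ℕ)
    (t q : List Bool) : Prop :=
  ∃ z, IsPad z ∧ (q ++ z).length = mm n ∧ t.length = mm n + 1 ∧
    val t ≤ cnt (mm n) fun y => FSet F key rho n y ∧ y ≠ q ++ z

/-- One step of a certified run. -/
def KStep (F : Lang) (key : List Bool → List Bool) (rho mm : ℕ → ℕ) (n : ℕ)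
    (t x β β' : List Bool) : Prop :=
  β'.length ≤ rho x.length ∧ ((β' = β ++ [true] ∧ pair x (key β) ∈ F) ∨
    (β' = β ++ [false] ∧ NoCert F key rho mm n t (pair x (key β))))

/-- The certified value of the bit with the number `|v|`. -/
def BitC (F G : Lang) (key : List Bool → List Bool) (rho mm : ℕ → ℕ) (n : ℕ)
    (t v : List Bool) (b : Bool) : Prop :=
  ∃ α : List Bool, α.length = rho (pair (ones n) v).length ∧
    Relation.ReflTransGen (KStep F key rho mm n t (pair (ones n) v)) [] α ∧
    ((b = true ∧ pair (pair (ones n) v) α ∈ G) ∨ (b = false ∧ pair (pair (ones n) v) α ∉ G))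

/-- One step in verifying the census. -/
def CStep (F G : Lang) (key : List Bool → List Bool) (rho mm : ℕ → ℕ) (n : ℕ)
    (t w w' : List Bool) : Prop :=
  w'.length ≤ n + 1 ∧ ∃ b, w' = w ++ [b] ∧ BitC F G key rho mm n t (ones w.length) b

/-- Hypotheses on the protocol. -/
structure Prot (O : List Bool → Bool) (F G : Lang) (key : List Bool → List Bool)
    (rho mm : ℕ → ℕ) : Prop where
  hF : F ∈ NEXPLang O
  hG : G ∈ NEXPLang O
  hG' : Gᶜ ∈ NEXPLang O
  hkey : NEXP O fun e : Fin 2 → List Bool => e 1 = key (e 0)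
  hkl : ∀ β, (key β).length ≤ β.length
  hrho : NEXP O fun e : Fin 2 → List Bool => (e 1).length = rho (e 0).length
  hrhop : PolyB rho
  hmm : NEXP O fun e : Fin 2 → List Bool => (e 1).length = mm (e 0).length
  hmmp : PolyB mm
  hmml : ∀ n i, i ≤ n → 2 * (inp n i).length + rho (inp n i).length + 3 ≤ mm n

end Pool.Agent.LibDual85
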