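import Pool.Agent.LibBHN.Misc
import Pool.Agent.LibDual85.Fact

/-! Task LD-27. -/

namespace Pool.Agent.LibDual85

open Function Pool.Agent.LibNexp Pool.Agent.LibBHN

variable {O : List Bool → Bool}

/-- A suitable length of the padded facts. -/
theorem exists_mm (O : List Bool → Bool) {rho : ℕ → ℕ} (hrho : PolyB rho) :
    ∃ mm : ℕ → ℕ, (NEXP O fun e : Fin 2 → List Bool => (e 1).length = mm (e 0).length) ∧
      PolyB mm ∧ ∀ n i, i ≤ n → 2 * (inp n i).length + rho (inp n i).length + 3 ≤ mm n := by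
  obtain ⟨c, hc⟩ := hrho
  have h3 : PolyB fun n => 3 * n + 2 :=
    ((PolyB.const 3).mul PolyB.id).add (PolyB.const 2)
  have h4 : PolyB fun n => 2 * (3 * n + 2) + (((3 * n + 2) ^ c + c) + 3) :=
    ((PolyB.const 2).mul h3).add ((h3.comp_pow c).add (PolyB.const 3))
  obtain ⟨D, hD⟩ := h4
  refine ⟨fun n => n ^ D + D, nexp_powAdd D D 0 1, ⟨D, fun n => le_rfl⟩, fun n i hi => ?_⟩
  have hlen : (inp n i).length ≤ 3 * n + 2 := by
    rw [inp, length_pair, List.length_replicate, List.length_replicate]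
    omega
  have h5 := hc (inp n i).length
  have h6 := Nat.pow_le_pow_left hlen c
  have h7 : 2 * (3 * n + 2) + (((3 * n + 2) ^ c + c) + 3) ≤ n ^ D + D := hD n
  show _ ≤ n ^ D + D
  omega

end Pool.Agent.LibDual85
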