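import Pool.Agent.LibDual85.AdvB26
import Pool.Agent.LibDual85.AdvB27
import Pool.Agent.LibDual85.KProt

/-! Task LD-28. -/

namespace Pool.Agent.LibDual85

open Function Pool.Agent.LibNexp Pool.Agent.LibBHN

variable {O : List Bool → Bool}

private theorem advB28_sub (r : ℕ) :
    {γ | ∃ β : List Bool, β.length < r ∧ γ = ones β.length} ⊆
      ((Finset.range r).image ones : Finset (List Bool)) := by
  rintro γ ⟨β, hβ, rfl⟩
  rw [Finset.mem_coe, Finset.mem_image]
  exact ⟨β.length, Finset.mem_range.mpr hβ, rfl⟩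

private theorem advB28_bound (c n : ℕ) :
    Nat.log 2 (∑ i ∈ Finset.range (n + 1), ((inp n i).length ^ c + c)) ≤
      (4 ^ c + c) + (Nat.log 2 (n + 1) + 1) * (c + 1) := by
  have h1 : ∀ i ∈ Finset.range (n + 1), (inp n i).length ^ c + c ≤
      (4 ^ c + c) * (n + 1) ^ c := by
    intro i hi
    have hi' := Finset.mem_range.mp hi
    have h2 : (inp n i).length ≤ 4 * (n + 1) := by
      unfold inp
      rw [length_pair, List.length_replicate, List.length_replicate]
      omega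
    have h3 := Nat.pow_le_pow_left h2 c
    rw [mul_pow] at h3
    have h4 : 1 ≤ (n + 1) ^ c := Nat.one_le_pow _ _ (Nat.succ_pos n)
    have h5 : c * 1 ≤ c * (n + 1) ^ c := Nat.mul_le_mul_left c h4
    rw [add_mul]
    omega
  have h6 : ∑ i ∈ Finset.range (n + 1), ((inp n i).length ^ c + c) ≤
      (4 ^ c + c) * (n + 1) ^ (c + 1) := by
    refine (Finset.sum_le_sum h1).trans (le_of_eq ?_)
    rw [Finset.sum_const, Finset.card_range, smul_eq_mul]
    ring
  have h7 : n + 1 ≤ 2 ^ (Nat.log 2 (n + 1) + 1) := (Nat.lt_pow_succ_log_self (by norm_num) _).le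
  have h8 : (4 ^ c + c) * (n + 1) ^ (c + 1) ≤
      2 ^ ((4 ^ c + c) + (Nat.log 2 (n + 1) + 1) * (c + 1)) := by
    rw [pow_add 2 (4 ^ c + c), pow_mul 2]
    exact Nat.mul_le_mul (Nat.lt_two_pow_self).le (Nat.pow_le_pow_left h7 _)
  calc Nat.log 2 (∑ i ∈ Finset.range (n + 1), ((inp n i).length ^ c + c)) ≤
      Nat.log 2 (2 ^ ((4 ^ c + c) + (Nat.log 2 (n + 1) + 1) * (c + 1))) :=
        Nat.log_mono_right (h6.trans h8)
    _ = _ := Nat.log_pow (by norm_num) _

theorem logAdvice_of_ptt (h : POracle (NEXPLang O) ⊆ PTt (NEXPLang O)) :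
    ∀ L ∈ NEXPLang O, ∃ c : ℕ,
      Lᶜ ∈ WithAdvice (NEXPLang O) {f | ∀ n, (f n).length ≤ c * Nat.log 2 (n + 1) + c} := by
  intro L hL
  obtain ⟨F, hF, G, hG, hG', c, hc⟩ := kprot_of_ptt (h (bitLang_mem hL))
  have hrhop : PolyB fun m => m ^ c + c := ⟨c, fun n => le_rfl⟩
  obtain ⟨mm, hmm, hmmp, hmml⟩ := exists_mm O hrhop
  have hP : Prot O F G (fun β => ones β.length) (fun m => m ^ c + c) mm :=
    { hF := hF
      hG := hG
      hG' := hG'
      hkey := nexp_ones 0 1
      hkl := fun β => by simp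
      hrho := nexp_powAdd c c 0 1
      hrhop := hrhop
      hmm := hmm
      hmmp := hmmp
      hmml := hmml }
  have h1 := advice_of_prot hP hL hc (κ := fun m => m ^ c + c)
    (fun m => by
      refine (Set.ncard_le_ncard (advB28_sub (m ^ c + c)) (Finset.finite_toSet _)).trans ?_
      rw [Set.ncard_coe_finset]
      exact Finset.card_image_le.trans (le_of_eq (Finset.card_range _)))
    (fun m => (Finset.finite_toSet _).subset (advB28_sub (m ^ c + c)))
  obtain ⟨B, hB, f, hf, hLf⟩ := h1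
  refine ⟨(4 ^ c + c) + (c + 1) + 1, B, hB, f, fun n => ?_, hLf⟩
  have h2 := hf n
  have h3 := advB28_bound c n
  refine h2.trans ((Nat.add_le_add_right h3 1).trans ?_)
  have h4 : (4 ^ c + c + (c + 1) + 1) * Nat.log 2 (n + 1) =
      (4 ^ c + c + 1) * Nat.log 2 (n + 1) + (c + 1) * Nat.log 2 (n + 1) := by ring
  rw [h4]
  have h5 : (Nat.log 2 (n + 1) + 1) * (c + 1) = (c + 1) * Nat.log 2 (n + 1) + (c + 1) := by ring
  rw [h5]
  omega

end Pool.Agent.LibDual85
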