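import Pool.Agent.LibDual85.AdvB26
import Pool.Agent.LibDual85.AdvB27
import Pool.Agent.LibDual85.KProt
import Pool.Agent.LibDual85.Log

/-! Task LD-29. -/

namespace Pool.Agent.LibDual85

open Function Pool.Agent.LibNexp Pool.Agent.LibBHN

variable {O : List Bool → Bool}

private def advB29_pad (r : ℕ) (β : List Bool) : List Bool :=
  β ++ true :: List.replicate (r - β.length - 1) false

private theorem advB29_length {r : ℕ} {β : List Bool} (h : β.length < r) :
    (advB29_pad r β).length = r := by
  rw [advB29_pad, List.length_append, List.length_cons, List.length_replicate]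
  omega

private theorem advB29_inj (r : ℕ) :
    Set.InjOn (fun β => val (advB29_pad r β)) {β : List Bool | β.length < r} := by
  intro β hβ β' hβ' h
  have h1 : advB29_pad r β = advB29_pad r β' := by
    have h2 := bits_val (advB29_pad r β)
    have h3 := bits_val (advB29_pad r β')
    rw [advB29_length hβ] at h2
    rw [advB29_length hβ'] at h3
    rw [← h2, ← h3]
    exact congrArg (bits r) h
  exact pad_injective h1

private theorem advB29_maps (r : ℕ) :
    Set.MapsTo (fun β => val (advB29_pad r β)) {β : List Bool | β.length < r}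
      (Set.Iio (2 ^ r)) := by
  intro β hβ
  have h := cnt_val_lt (advB29_pad r β)
  rw [advB29_length hβ] at h
  exact h

private theorem advB29_fin (r : ℕ) : {β : List Bool | β.length < r}.Finite :=
  Set.Finite.of_injOn (advB29_maps r) (advB29_inj r) (Set.finite_Iio _)

private theorem advB29_ncard (r : ℕ) : {β : List Bool | β.length < r}.ncard ≤ 2 ^ r := by
  have h := Set.ncard_le_ncard_of_injOn _ (advB29_maps r) (advB29_inj r) (Set.finite_Iio _)
  rwa [← Finset.coe_Iio, Set.ncard_coe_finset, Nat.card_Iio] at h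

private theorem advB29_log (n : ℕ) : Nat.log 2 (3 * n + 3) ≤ Nat.log 2 (n + 1) + 2 := by
  have h1 : Nat.log 2 ((n + 1) * 2 * 2) = Nat.log 2 (n + 1) + 2 := by
    rw [Nat.log_mul_base (by norm_num) (by omega), Nat.log_mul_base (by norm_num) (by omega)]
  rw [← h1]
  exact Nat.log_mono_right (by omega)

private theorem advB29_log_pow (n k : ℕ) :
    Nat.log 2 ((n + 1) * 2 ^ k) = Nat.log 2 (n + 1) + k := by
  induction k with
  | zero => simp
  | succ k ih =>
    have h1 : 0 < (n + 1) * 2 ^ k := by positivity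
    rw [pow_succ, ← mul_assoc, Nat.log_mul_base (by norm_num) h1.ne', ih, add_assoc]

private theorem advB29_main {K : Lang} (hK : K ∈ NEXPLang O) {C c : ℕ}
    (h : BitLang K ∈ PQueryF (NEXPLang O) fun n => C * Nat.log 2 (n + 1) + c) :
    Kᶜ ∈ WithAdvice (NEXPLang O)
      {f | ∀ n, (f n).length ≤ (C + 1) * Nat.log 2 (n + 1) + (2 * C + c + 1)} := by
  obtain ⟨F, hF, G, hG, hG', hL⟩ := kprot_of_pqueryF h
  have hrho : PolyB fun n => C * Nat.log 2 (n + 1) + c := by
    refine PolyB.mono (((PolyB.const C).mul PolyB.id.succ).add (PolyB.const c)) fun n => ?_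
    have h1 : Nat.log 2 (n + 1) ≤ n + 1 := Nat.log_le_self _ _
    exact Nat.add_le_add_right (Nat.mul_le_mul_left _ h1) _
  obtain ⟨mm, hm1, hm2, hm3⟩ := exists_mm O hrho
  have hprot : Prot O F G (fun β => β) (fun n => C * Nat.log 2 (n + 1) + c) mm :=
    { hF := hF
      hG := hG
      hG' := hG'
      hkey := nexp_eq 1 0
      hkl := fun β => le_refl _
      hrho := nexp_logMul C c 0 1
      hrhop := hrho
      hmm := hm1
      hmmp := hm2
      hmml := hm3 }
  have hset : ∀ m : ℕ, {γ | ∃ β : List Bool, β.length < C * Nat.log 2 (m + 1) + c ∧ γ = β} =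
      {β : List Bool | β.length < C * Nat.log 2 (m + 1) + c} := by
    intro m
    ext γ
    constructor
    · rintro ⟨β, h1, rfl⟩
      exact h1
    · intro h1
      exact ⟨γ, h1, rfl⟩
  have hadv := advice_of_prot hprot hK hL (κ := fun m => 2 ^ (C * Nat.log 2 (m + 1) + c))
    (fun m => by
      rw [hset m]
      exact advB29_ncard _)
    (fun m => by
      rw [hset m]
      exact advB29_fin _)
  refine WithAdvice.mono (fun f hf n => ?_) hadv
  refine (hf n).trans ?_
  have h1 : ∑ i ∈ Finset.range (n + 1), 2 ^ (C * Nat.log 2 ((inp n i).length + 1) + c) ≤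
      (n + 1) * 2 ^ (C * (Nat.log 2 (n + 1) + 2) + c) := by
    have h2 : ∀ i ∈ Finset.range (n + 1), 2 ^ (C * Nat.log 2 ((inp n i).length + 1) + c) ≤
        2 ^ (C * (Nat.log 2 (n + 1) + 2) + c) := by
      intro i hi
      rw [Finset.mem_range] at hi
      refine Nat.pow_le_pow_right (by norm_num)
        (Nat.add_le_add_right (Nat.mul_le_mul_left _ ?_) _)
      refine le_trans (Nat.log_mono_right ?_) (advB29_log n)
      rw [inp, length_pair, List.length_replicate, List.length_replicate]
      omega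
    refine (Finset.sum_le_sum h2).trans (le_of_eq ?_)
    rw [Finset.sum_const, Finset.card_range, smul_eq_mul]
  have h3 := Nat.log_mono_right (b := 2) h1
  rw [advB29_log_pow] at h3
  refine (Nat.add_le_add_right h3 1).trans (le_of_eq ?_)
  ring

theorem logAdvice_of_queries (h : ∀ L ∈ POracle (NEXPLang O), ∃ c : ℕ,
      L ∈ PQueryF (NEXPLang O) fun n => c * Nat.log 2 (n + 1) + c) :
    ∀ L ∈ NEXPLang O, ∃ c : ℕ,
      Lᶜ ∈ WithAdvice (NEXPLang O) {f | ∀ n, (f n).length ≤ c * Nat.log 2 (n + 1) + c} := by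
  intro L hL
  obtain ⟨c, hc⟩ := h _ (bitLang_mem hL)
  refine ⟨3 * c + 1, WithAdvice.mono (fun f hf n => ?_) (advB29_main hL hc)⟩
  refine (hf n).trans (Nat.add_le_add (Nat.mul_le_mul_right _ (by omega)) (by omega))

theorem uniformAdvice_of_queries {C : ℕ} (h : ∀ L ∈ POracle (NEXPLang O), ∃ c : ℕ,
      L ∈ PQueryF (NEXPLang O) fun n => C * Nat.log 2 (n + 1) + c) :
    ∀ L ∈ NEXPLang O, ∃ c : ℕ,
      Lᶜ ∈ WithAdvice (NEXPLang O) {f | ∀ n, (f n).length ≤ (C + 1) * Nat.log 2 (n + 1) + c} := by
  intro L hL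
  obtain ⟨c, hc⟩ := h _ (bitLang_mem hL)
  exact ⟨2 * C + c + 1, advB29_main hL hc⟩

end Pool.Agent.LibDual85
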