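import Pool.Agent.LibDual85.Fact
import Pool.Agent.LibDual85.Rev

/-! Task LD-16. -/

namespace Pool.Agent.LibDual85

open Function Pool.Agent.LibNexp Pool.Agent.LibBHN

variable {O : List Bool → Bool}

variable {F G : Lang} {key : List Bool → List Bool} {rho mm : ℕ → ℕ}

theorem fa16_inp : NEXP O fun e : Fin 3 → List Bool => e 2 = inp (e 0).length (e 1).length := by
  have h1 : NEXP O fun e : Fin 5 → List Bool =>
      e 3 = ones (e 0).length ∧ e 4 = ones (e 1).length ∧ e 2 = pair (e 3) (e 4) := by
    refine (nexp_ones 0 3).and ((nexp_ones 1 4).and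
      (((nexp_pairRel (O := O)).reindex ![3, 4, 2]).congr fun e => ?_))
    simp
  have h2 := nexp_ex2 (R := fun (e : Fin 3 → List Bool) a b =>
    a = ones (e 0).length ∧ b = ones (e 1).length ∧ e 2 = pair a b) h1
    (g := fun n => n) PolyB.id monotone_id (by
      rintro e a b ⟨rfl, rfl, -⟩
      have h0 := len_le_size e 0
      have h1 := len_le_size e 1
      constructor
      · simpa using h0
      · simpa using h1)
  refine h2.congr fun e => ?_
  constructor
  · rintro ⟨a, b, rfl, rfl, h⟩; exact h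
  · intro h; exact ⟨_, _, rfl, rfl, h⟩

theorem fa16_lt (h : Prot O F G key rho mm) :
    NEXP O fun e : Fin 2 → List Bool => (e 0).length < rho (e 1).length := by
  obtain ⟨c, hc⟩ := h.hrhop
  have h1 : NEXP O fun e : Fin 4 → List Bool =>
      (e 2).length = rho (e 1).length ∧ (e 3).length = 1 * (e 0).length + 1 ∧
        (e 3).length ≤ (e 2).length := by
    refine ((h.hrho.reindex ![1, 2]).congr fun e => ?_).and
      ((nexp_lin 1 1 0 3).and (nexp_lenLe 3 2))
    simp
  have h2 := nexp_ex2 (R := fun (e : Fin 2 → List Bool) s u =>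
    s.length = rho (e 1).length ∧ u.length = 1 * (e 0).length + 1 ∧ u.length ≤ s.length) h1
    (g := fun n => n ^ c + c) ((PolyB.id.pow c).add (PolyB.const c))
    (fun a b hab => Nat.add_le_add_right (Nat.pow_le_pow_left hab c) c) (by
      rintro e s u ⟨h3, -, h4⟩
      have h5 : s.length ≤ size e ^ c + c := by
        rw [h3]
        exact (hc _).trans (Nat.add_le_add_right (Nat.pow_le_pow_left (len_le_size e 1) c) c)
      exact ⟨h5, h4.trans h5⟩)
  refine h2.congr fun e => ?_
  constructor
  · rintro ⟨s, u, h3, h4, h5⟩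
    omega
  · intro h3
    refine ⟨List.replicate (rho (e 1).length) true, List.replicate ((e 0).length + 1) true,
      by simp, by simp, ?_⟩
    simpa using h3

theorem fa16_q (h : Prot O F G key rho mm) :
    NEXP O fun e : Fin 3 → List Bool => e 2 = pair (e 0) (key (e 1)) := by
  have h1 : NEXP O fun e : Fin 4 → List Bool => e 3 = key (e 1) ∧ e 2 = pair (e 0) (e 3) := by
    refine ((h.hkey.reindex ![1, 3]).congr fun e => ?_).and
      (((nexp_pairRel (O := O)).reindex ![0, 3, 2]).congr fun e => ?_)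
    · simp
    · simp
  have h2 := nexp_ex (R := fun (e : Fin 3 → List Bool) z => z = key (e 1) ∧ e 2 = pair (e 0) z) h1
    (g := fun n => n) PolyB.id (by
      rintro e z ⟨rfl, -⟩
      exact (h.hkl _).trans (len_le_size e 1))
  refine h2.congr fun e => ?_
  constructor
  · rintro ⟨z, rfl, h3⟩; exact h3
  · intro h3; exact ⟨_, rfl, h3⟩

theorem fa16_y (h : Prot O F G key rho mm) :
    NEXP O fun e : Fin 3 → List Bool => ∃ z, IsPad z ∧ e 2 = pair (e 0) (key (e 1)) ++ z ∧
      pair (e 0) (key (e 1)) ∈ F := by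
  have h1 : NEXP O fun e : Fin 4 → List Bool => e 3 = pair (e 0) (key (e 1)) ∧ e 3 ∈ F ∧
      ∃ z, IsPad z ∧ e 2 = e 3 ++ z := by
    refine (((fa16_q h).reindex ![0, 1, 3]).congr fun e => ?_).and ((nexp_mem h.hF 3).and
      (((nexp_catPad (O := O)).reindex ![3, 2]).congr fun e => ?_))
    · simp
    · simp
  have h2 := nexp_ex (R := fun (e : Fin 3 → List Bool) q => q = pair (e 0) (key (e 1)) ∧ q ∈ F ∧
    ∃ z, IsPad z ∧ e 2 = q ++ z) h1 (g := fun n => n) PolyB.id (by
      rintro e q ⟨-, -, z, -, h3⟩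
      have := len_le_size e 2
      rw [h3, List.length_append] at this
      show _ ≤ size e
      omega)
  refine h2.congr fun e => ?_
  constructor
  · rintro ⟨q, rfl, h3, z, h4, h5⟩; exact ⟨z, h4, h5, h3⟩
  · rintro ⟨z, h4, h5, h3⟩; exact ⟨_, rfl, h3, z, h4, h5⟩

/-- the inputs of a scale -/
theorem fa16_isInp : NEXP O fun e : Fin 2 → List Bool => ∃ i ≤ (e 0).length, e 1 = inp (e 0).length i := by
  have h1 : NEXP O fun e : Fin 3 → List Bool => (e 2).length ≤ (e 0).length ∧
      e 1 = inp (e 0).length (e 2).length := by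
    refine (nexp_lenLe 2 0).and (((fa16_inp (O := O)).reindex ![0, 2, 1]).congr fun e => ?_)
    simp
  have h2 := nexp_ex (R := fun (e : Fin 2 → List Bool) j => j.length ≤ (e 0).length ∧
    e 1 = inp (e 0).length j.length) h1 (g := fun n => n) PolyB.id (by
      rintro e z ⟨h3, -⟩
      exact h3.trans (len_le_size e 0))
  refine h2.congr fun e => ?_
  constructor
  · rintro ⟨j, h3, h4⟩; exact ⟨_, h3, h4⟩
  · rintro ⟨i, h3, h4⟩
    exact ⟨List.replicate i true, by simpa using h3, by simpa using h4⟩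

theorem nexp_fset (h : Prot O F G key rho mm) :
    NEXP O fun e : Fin 2 → List Bool => FSet F key rho (e 0).length (e 1) := by
  obtain ⟨c, hc⟩ := h.hrhop
  have h1 : NEXP O fun e : Fin 4 → List Bool =>
      (∃ i ≤ (e 0).length, e 2 = inp (e 0).length i) ∧ (e 3).length < rho (e 2).length ∧
        ∃ z, IsPad z ∧ e 1 = pair (e 2) (key (e 3)) ++ z ∧ pair (e 2) (key (e 3)) ∈ F := by
    refine (((fa16_isInp (O := O)).reindex ![0, 2]).congr fun e => ?_).and
      ((((fa16_lt h).reindex ![3, 2]).congr fun e => ?_).and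
        (((fa16_y h).reindex ![2, 3, 1]).congr fun e => ?_))
    · simp
    · simp
    · simp
  have h2 := nexp_ex2 (R := fun (e : Fin 2 → List Bool) x β =>
    (∃ i ≤ (e 0).length, x = inp (e 0).length i) ∧ β.length < rho x.length ∧
      ∃ z, IsPad z ∧ e 1 = pair x (key β) ++ z ∧ pair x (key β) ∈ F) h1
    (g := fun n => n ^ c + c + n) (((PolyB.id.pow c).add (PolyB.const c)).add PolyB.id)
    (fun a b hab => Nat.add_le_add (Nat.add_le_add_right (Nat.pow_le_pow_left hab c) c) hab) (by
      rintro e x β ⟨-, h4, z, -, h5, -⟩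
      have h6 := len_le_size e 1
      rw [h5, List.length_append, length_pair] at h6
      have h7 : x.length ≤ size e := by omega
      have h8 : rho x.length ≤ size e ^ c + c :=
        (hc _).trans (Nat.add_le_add_right (Nat.pow_le_pow_left h7 c) c)
      constructor
      · show _ ≤ size e ^ c + c + size e
        omega
      · show _ ≤ size e ^ c + c + size e
        omega)
  refine h2.congr fun e => ?_
  unfold FSet
  constructor
  · rintro ⟨x, β, ⟨i, hi, rfl⟩, h4, z, h5, h6, h7⟩
    exact ⟨i, hi, β, h4, z, h5, h6, h7⟩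
  · rintro ⟨i, hi, β, h4, z, h5, h6, h7⟩
    exact ⟨_, β, ⟨i, hi, rfl⟩, h4, z, h5, h6, h7⟩

end Pool.Agent.LibDual85
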