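import Pool.Agent.LibDual85.Fact

/-! Task LD-20. -/

namespace Pool.Agent.LibDual85

open Function Pool.Agent.LibNexp Pool.Agent.LibBHN

variable {O : List Bool → Bool}

variable {F G : Lang} {key : List Bool → List Bool} {rho mm : ℕ → ℕ}

theorem noCert_iff (h : Prot O F G key rho mm) {n i : ℕ} (hi : i ≤ n) {t β : List Bool}
    (hβ : β.length < rho (inp n i).length) (htl : t.length = mm n + 1)
    (ht : val t = cnt (mm n) (FSet F key rho n)) :
    NoCert F key rho mm n t (pair (inp n i) (key β)) ↔ pair (inp n i) (key β) ∉ F := by
  set q := pair (inp n i) (key β) with hq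
  constructor
  · rintro ⟨z, hz, hlen, -, hcnt⟩ hqF
    have hmem : FSet F key rho n (q ++ z) := ⟨i, hi, β, hβ, z, hz, rfl, hqF⟩
    have h1 := cnt_mem hmem
    rw [hlen] at h1
    omega
  · intro hqF
    have hql : q.length + 1 ≤ mm n := by
      have h1 := h.hmml n i hi
      have h2 := h.hkl β
      rw [hq, length_pair]
      omega
    set z : List Bool := true :: List.replicate (mm n - q.length - 1) false with hz
    have hzl : (q ++ z).length = mm n := by
      rw [List.length_append, hz, List.length_cons, List.length_replicate]
      omega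
    have hnot : ¬ FSet F key rho n (q ++ z) := by
      rintro ⟨i', -, β', -, z', ⟨j', hj'⟩, he, hF'⟩
      apply hqF
      rw [hj', hz] at he
      have h3 := pad_injective he
      rw [h3]
      exact hF'
    refine ⟨z, ⟨_, hz⟩, hzl, htl, ?_⟩
    rw [ht, cnt_notMem hnot]

end Pool.Agent.LibDual85
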