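import Pool.Agent.LibDual85.AdvADefs

/-! Task LD-13. -/

namespace Pool.Agent.LibDual85

open Function Pool.Agent.LibNexp Pool.Agent.LibBHN

variable {O : List Bool → Bool}

/-- Advice of bounded length gives good advice of exact length. -/
theorem exists_good {C : Lang} (hC : C ∈ NEXPLang O) (c : ℕ) {s : ℕ → ℕ}
    (h : (PadLang C)ᶜ ∈ WithAdvice (NEXPLang O) {f | ∀ n, (f n).length ≤ s n})
    {lam : ℕ → ℕ} (hlam : ∀ n, s (mlen c n) + 1 ≤ lam n) :
    ∃ B ∈ NEXPLang O, GoodAdv B C c lam := by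
  obtain ⟨B0, hB0, f, hf, hBf⟩ := h
  obtain ⟨B, hB, hBiff⟩ := rel_of_nexp (nexp_padded hB0)
  refine ⟨B, hB, fun n => ?_⟩
  have hl : (f (mlen c n)).length + 1 ≤ lam n := (Nat.succ_le_succ (hf (mlen c n))).trans (hlam n)
  refine ⟨f (mlen c n) ++ true :: List.replicate (lam n - (f (mlen c n)).length - 1) false, ?_, ?_⟩
  · rw [List.length_append, List.length_cons, List.length_replicate]
    omega
  · intro y hy
    rw [hBiff, padded_iff, ← hy]
    have h1 : y ∈ (PadLang C)ᶜ ↔ y ∈ {x | pair x (f x.length) ∈ B0} := by rw [hBf]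
    exact h1

/-- Logarithm of the length of the padded queries. -/
theorem log_mlen (c : ℕ) : ∃ d, ∀ n, Nat.log 2 (mlen c n + 1) ≤ d * Nat.log 2 (n + 1) + d := by
  refine ⟨2 * c + 7, fun n => ?_⟩
  set L := Nat.log 2 (n + 1) with hL
  have h1 : n + 1 < 2 ^ (L + 1) := Nat.lt_pow_succ_log_self (by norm_num) (n + 1)
  have h2 : mlen c n + 1 ≤ 2 ^ ((L + 2) + (L + 1) * c + (c + 3) + 2) := by
    have a1 : 2 * n ≤ 2 ^ (L + 2) := by
      rw [pow_succ]; omega
    have a2 : n ^ c ≤ 2 ^ ((L + 1) * c) := by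
      rw [pow_mul]
      exact Nat.pow_le_pow_left (by omega) c
    have a3 : c + 4 ≤ 2 ^ (c + 3) := Nat.lt_two_pow_self
    have b1 : 2 ^ (L + 2) ≤ 2 ^ ((L + 2) + (L + 1) * c + (c + 3)) :=
      Nat.pow_le_pow_right (by norm_num) (by omega)
    have b2 : 2 ^ ((L + 1) * c) ≤ 2 ^ ((L + 2) + (L + 1) * c + (c + 3)) :=
      Nat.pow_le_pow_right (by norm_num) (by omega)
    have b3 : 2 ^ (c + 3) ≤ 2 ^ ((L + 2) + (L + 1) * c + (c + 3)) :=
      Nat.pow_le_pow_right (by norm_num) (by omega)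
    have e : 2 ^ ((L + 2) + (L + 1) * c + (c + 3) + 2) =
        4 * 2 ^ ((L + 2) + (L + 1) * c + (c + 3)) := by rw [pow_add _ _ 2]; ring
    rw [e]
    unfold mlen
    omega
  calc Nat.log 2 (mlen c n + 1)
      ≤ Nat.log 2 (2 ^ ((L + 2) + (L + 1) * c + (c + 3) + 2)) := Nat.log_mono_right h2
    _ = (L + 2) + (L + 1) * c + (c + 3) + 2 := Nat.log_pow (by norm_num) _
    _ ≤ (2 * c + 7) * L + (2 * c + 7) := by nlinarith [Nat.zero_le L, Nat.zero_le c, Nat.zero_le (c * L)]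

end Pool.Agent.LibDual85
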