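import Pool.Agent.LibNexp.LogLaw

/-! Task LD-30. the zero-one law with integer logarithms. -/

namespace Pool.Agent.LibDual85

open Function Pool.Agent.LibNexp

variable {O : List Bool → Bool}

private theorem law_log_le (n : ℕ) :
    (Nat.log 2 (n + 1) : ℝ) * Real.log 2 ≤ Real.log ((n : ℝ) + 1) := by
  have h1 : 2 ^ Nat.log 2 (n + 1) ≤ n + 1 := Nat.pow_log_le_self 2 (by omega)
  have h2 : (2 : ℝ) ^ Nat.log 2 (n + 1) ≤ (n : ℝ) + 1 := by exact_mod_cast h1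
  have h3 := Real.log_le_log (by positivity) h2
  rwa [Real.log_pow] at h3

private theorem law_log_lt (n : ℕ) :
    Real.log ((n : ℝ) + 1) ≤ ((Nat.log 2 (n + 1) : ℝ) + 1) * Real.log 2 := by
  have h1 : n + 1 < 2 ^ (Nat.log 2 (n + 1) + 1) := Nat.lt_pow_succ_log_self (by norm_num) (n + 1)
  have h2 : (n : ℝ) + 1 ≤ (2 : ℝ) ^ (Nat.log 2 (n + 1) + 1) := by exact_mod_cast h1.le
  have h3 := Real.log_le_log (by positivity) h2
  rw [Real.log_pow] at h3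
  push_cast at h3
  exact h3

theorem law_log {C : ℕ} (h : ∀ L ∈ NEXPLang O, ∃ c : ℕ,
      Lᶜ ∈ WithAdvice (NEXPLang O) {f | ∀ n, (f n).length ≤ C * Nat.log 2 (n + 1) + c})
    {N : ℕ} (hN : 1 ≤ N) : ∀ L ∈ NEXPLang O, ∃ c : ℕ,
      Lᶜ ∈ WithAdvice (NEXPLang O) {f | ∀ n, (f n).length ≤ Nat.log 2 (n + 1) / N + c} := by
  have hlog2 : 0 < Real.log 2 := Real.log_pos (by norm_num)
  have hNR : (1 : ℝ) ≤ N := by exact_mod_cast hN
  have hLg : Lg O ((C : ℝ) / Real.log 2) := by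
    intro L hL
    obtain ⟨c, hc⟩ := h L hL
    refine ⟨c, WithAdvice.mono (fun f hf n => ?_) hc⟩
    have h1 : ((f n).length : ℝ) ≤ ((C * Nat.log 2 (n + 1) + c : ℕ) : ℝ) := by
      exact_mod_cast hf n
    push_cast at h1
    have h2 := law_log_le n
    have h3 : (C : ℝ) * Nat.log 2 (n + 1) ≤ C / Real.log 2 * Real.log ((n : ℝ) + 1) := by
      have h4 : (Nat.log 2 (n + 1) : ℝ) ≤ Real.log ((n : ℝ) + 1) / Real.log 2 := by
        rw [le_div_iff₀ hlog2]; exact h2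
      have h5 := mul_le_mul_of_nonneg_left h4 (Nat.cast_nonneg (α := ℝ) C)
      calc _ ≤ _ := h5
        _ = _ := by ring
    linarith
  have hε : 0 < 1 / ((N : ℝ) * Real.log 2) := by positivity
  intro L hL
  obtain ⟨c, hc⟩ := hLg.law hε L hL
  refine ⟨⌈|c|⌉₊ + 2, WithAdvice.mono (fun f hf n => ?_) hc⟩
  have h1 : ((f n).length : ℝ) ≤ 1 / ((N : ℝ) * Real.log 2) * Real.log ((n : ℝ) + 1) + c := hf n
  have h2 := law_log_lt n
  have h3 : 1 / ((N : ℝ) * Real.log 2) * Real.log ((n : ℝ) + 1) ≤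
      ((Nat.log 2 (n + 1) : ℝ) + 1) / N := by
    have h4 := mul_le_mul_of_nonneg_left h2 hε.le
    have h5 : 1 / ((N : ℝ) * Real.log 2) * (((Nat.log 2 (n + 1) : ℝ) + 1) * Real.log 2) =
        ((Nat.log 2 (n + 1) : ℝ) + 1) / N := by
      field_simp
    rwa [h5] at h4
  have h6 : Nat.log 2 (n + 1) + 1 ≤ N * (Nat.log 2 (n + 1) / N) + N := by
    have h7 := Nat.div_add_mod (Nat.log 2 (n + 1)) N
    have h8 := Nat.mod_lt (Nat.log 2 (n + 1)) (show 0 < N by omega)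
    omega
  have h9 : ((Nat.log 2 (n + 1) : ℝ) + 1) / N ≤ ((Nat.log 2 (n + 1) / N : ℕ) : ℝ) + 1 := by
    rw [div_le_iff₀ (by linarith)]
    have h10 : ((Nat.log 2 (n + 1) + 1 : ℕ) : ℝ) ≤
        ((N * (Nat.log 2 (n + 1) / N) + N : ℕ) : ℝ) := by exact_mod_cast h6
    rw [Nat.cast_add, Nat.cast_add, Nat.cast_mul, Nat.cast_one] at h10
    linarith
  have h11 : |c| ≤ ⌈|c|⌉₊ := Nat.le_ceil _
  have h12 := le_abs_self c
  have h13 : ((f n).length : ℝ) ≤ ((Nat.log 2 (n + 1) / N + (⌈|c|⌉₊ + 2) : ℕ) : ℝ) := by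
    rw [Nat.cast_add, Nat.cast_add]
    have : ((2 : ℕ) : ℝ) = 2 := by norm_num
    rw [this]
    linarith
  exact_mod_cast h13

end Pool.Agent.LibDual85
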