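import Pool.Agent.LibBHN.PoracleA
import Pool.Agent.LibDual85.AdvA11
import Pool.Agent.LibDual85.AdvA12
import Pool.Agent.LibDual85.Good
import Pool.Agent.LibDual85.Log

/-! Task LD-14. -/

namespace Pool.Agent.LibDual85

open Function Pool.Agent.LibNexp Pool.Agent.LibBHN

variable {O : List Bool → Bool}

private theorem small_log_le (n : ℕ) : Nat.log 2 (n + 1) ≤ n :=
  Nat.le_of_lt_succ (Nat.log_lt_self 2 (Nat.succ_ne_zero n))

private theorem small_log_mono {a b : ℕ} (h : a ≤ b) : Nat.log 2 (a + 1) ≤ Nat.log 2 (b + 1) :=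
  Nat.log_mono_right (Nat.succ_le_succ h)

theorem queries_of_logAdvice (h : ∀ L ∈ NEXPLang O, ∃ c : ℕ,
      Lᶜ ∈ WithAdvice (NEXPLang O) {f | ∀ n, (f n).length ≤ c * Nat.log 2 (n + 1) + c}) :
    ∀ L ∈ POracle (NEXPLang O), L ∈ PTt (NEXPLang O) ∧
      ∃ c : ℕ, L ∈ PQueryF (NEXPLang O) fun n => c * Nat.log 2 (n + 1) + c := by
  intro L hL
  obtain ⟨C, hC, c0, hLC⟩ := poracle_subset hL
  obtain ⟨c1, hc1⟩ := h _ (padLang_mem hC)
  obtain ⟨d, hd⟩ := log_mlen c0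
  have hLeq : L = {x | pair x (ans C x (x.length ^ c0 + c0)) ∈ C} := by
    ext x
    exact hLC x
  have hlam : ∀ n, c1 * Nat.log 2 (mlen c0 n + 1) + c1 + 1 ≤
      (c1 * d + c1 + 2) * Nat.log 2 (n + 1) + (c1 * d + c1 + 1) := by
    intro n
    have h1 := Nat.mul_le_mul_left c1 (hd n)
    have h2 : c1 * (d * Nat.log 2 (n + 1) + d) = c1 * d * Nat.log 2 (n + 1) + c1 * d := by ring
    rw [h2] at h1
    have h3 : (c1 * d + c1 + 2) * Nat.log 2 (n + 1) =
      c1 * d * Nat.log 2 (n + 1) + (c1 + 2) * Nat.log 2 (n + 1) := by ring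
    rw [h3]
    omega
  obtain ⟨B, hB, hgood⟩ := exists_good hC c0 (s := fun n => c1 * Nat.log 2 (n + 1) + c1) hc1
    (lam := fun n => (c1 * d + c1 + 2) * Nat.log 2 (n + 1) + (c1 * d + c1 + 1)) hlam
  have hN := nexp_logMul (O := O) (c1 * d + c1 + 2) (c1 * d + c1 + 1) (k := 2) 0 1
  have hP : PolyB fun n => (c1 * d + c1 + 2) * Nat.log 2 (n + 1) + (c1 * d + c1 + 1) := by
    refine PolyB.mono (PolyB.add (PolyB.mul (PolyB.const (c1 * d + c1 + 2)) PolyB.id)
      (PolyB.const (c1 * d + c1 + 1))) fun n => ?_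
    have := Nat.mul_le_mul_left (c1 * d + c1 + 2) (small_log_le n)
    omega
  have hM : Monotone fun n => (c1 * d + c1 + 2) * Nat.log 2 (n + 1) + (c1 * d + c1 + 1) := by
    intro a b hab
    have := Nat.mul_le_mul_left (c1 * d + c1 + 2) (small_log_mono hab)
    simp only
    omega
  constructor
  · rw [hLeq]
    refine ptt_of_good hB hC c0 hN hP hgood ?_
    have hQ : PolyB fun n => (n + 1) ^ (c1 * d + c1 + 2) * 2 ^ (c1 * d + c1 + 1) :=
      PolyB.mul (PolyB.pow (PolyB.succ PolyB.id) _) (PolyB.const _)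
    obtain ⟨e, he⟩ := hQ
    refine ⟨e, fun n => le_trans ?_ (he n)⟩
    rw [pow_add]
    refine Nat.mul_le_mul_right _ ?_
    rw [mul_comm, pow_mul]
    exact Nat.pow_le_pow_left (Nat.pow_log_le_self 2 (Nat.succ_ne_zero n)) _
  · refine ⟨c1 * d + c1 + 2, ?_⟩
    rw [hLeq]
    have := pqueryF_of_good hB hC c0 hN hP hgood
    exact this

theorem queries_of_smallAdvice (h : ∀ N : ℕ, 1 ≤ N → ∀ L ∈ NEXPLang O, ∃ c : ℕ,
      Lᶜ ∈ WithAdvice (NEXPLang O) {f | ∀ n, (f n).length ≤ Nat.log 2 (n + 1) / N + c}) :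
    ∀ N : ℕ, 1 ≤ N → ∀ L ∈ POracle (NEXPLang O), ∃ c : ℕ,
      L ∈ PQueryF (NEXPLang O) fun n => Nat.log 2 (n + 1) / N + c := by
  intro N hN1 L hL
  obtain ⟨C, hC, c0, hLC⟩ := poracle_subset hL
  obtain ⟨d, hd⟩ := log_mlen c0
  have hN2 : 1 ≤ N * (d + 1) := Nat.mul_pos hN1 (Nat.succ_pos d)
  obtain ⟨c1, hc1⟩ := h (N * (d + 1)) hN2 _ (padLang_mem hC)
  have hLeq : L = {x | pair x (ans C x (x.length ^ c0 + c0)) ∈ C} := by
    ext x
    exact hLC x
  have hlam : ∀ n, Nat.log 2 (mlen c0 n + 1) / (N * (d + 1)) + c1 + 1 ≤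
      Nat.log 2 (n + 1) / N + (c1 + 2) := by
    intro n
    have h1 : Nat.log 2 (mlen c0 n + 1) / (N * (d + 1)) ≤ Nat.log 2 (n + 1) / N + 1 := by
      rw [Nat.mul_comm, ← Nat.div_div_eq_div_mul]
      have h2 : Nat.log 2 (mlen c0 n + 1) / (d + 1) ≤ Nat.log 2 (n + 1) + 1 := by
        refine Nat.div_le_of_le_mul ((hd n).trans ?_)
        nlinarith
      calc Nat.log 2 (mlen c0 n + 1) / (d + 1) / N ≤ (Nat.log 2 (n + 1) + 1) / N :=
            Nat.div_le_div_right h2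
        _ ≤ (Nat.log 2 (n + 1) + N) / N := Nat.div_le_div_right (by omega)
        _ = Nat.log 2 (n + 1) / N + 1 := Nat.add_div_right _ hN1
    omega
  obtain ⟨B, hB, hgood⟩ := exists_good hC c0
    (s := fun n => Nat.log 2 (n + 1) / (N * (d + 1)) + c1) hc1
    (lam := fun n => Nat.log 2 (n + 1) / N + (c1 + 2)) hlam
  have hN := nexp_logDiv (O := O) hN1 (c1 + 2) (k := 2) 0 1
  have hP : PolyB fun n => Nat.log 2 (n + 1) / N + (c1 + 2) := by
    refine PolyB.mono (PolyB.add PolyB.id (PolyB.const (c1 + 2))) fun n => ?_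
    have := (Nat.div_le_self (Nat.log 2 (n + 1)) N).trans (small_log_le n)
    omega
  have hM : Monotone fun n => Nat.log 2 (n + 1) / N + (c1 + 2) := by
    intro a b hab
    have := Nat.div_le_div_right (c := N) (small_log_mono hab)
    simp only
    omega
  refine ⟨c1 + 3, ?_⟩
  rw [hLeq]
  have := pqueryF_of_good hB hC c0 hN hP hgood
  exact this

end Pool.Agent.LibDual85
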