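import Pool.Agent.LibDual85.AdvB28
import Pool.Agent.LibDual85.AdvB29
import Pool.Agent.LibDual85.Law
import Pool.Agent.LibDual85.Small

/-!
The duality between queries and advice, logarithmic scale.
-/

namespace Pool.Agent.LibDual85

open Function Pool.Agent.LibNexp Pool.Agent.LibBHN

theorem main_log (O : List Bool → Bool) : List.TFAE
    [POracle (NEXPLang O) ⊆ PTt (NEXPLang O),
      ∀ L ∈ POracle (NEXPLang O), ∃ c : ℕ,
        L ∈ PQueryF (NEXPLang O) fun n => c * Nat.log 2 (n + 1) + c,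
      ∀ L ∈ NEXPLang O, ∃ c : ℕ, Lᶜ ∈ WithAdvice (NEXPLang O)
        {f | ∀ n, (f n).length ≤ c * Nat.log 2 (n + 1) + c}] := by
  tfae_have 1 → 3 := logAdvice_of_ptt
  tfae_have 2 → 3 := logAdvice_of_queries
  tfae_have 3 → 1 := fun h L hL => (queries_of_logAdvice h L hL).1
  tfae_have 3 → 2 := fun h L hL => (queries_of_logAdvice h L hL).2
  tfae_finish

theorem main_law (O : List Bool → Bool) : List.TFAE
    [∃ C : ℕ, ∀ L ∈ POracle (NEXPLang O), ∃ c : ℕ,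
        L ∈ PQueryF (NEXPLang O) fun n => C * Nat.log 2 (n + 1) + c,
      ∀ N : ℕ, 1 ≤ N → ∀ L ∈ POracle (NEXPLang O), ∃ c : ℕ,
        L ∈ PQueryF (NEXPLang O) fun n => Nat.log 2 (n + 1) / N + c,
      ∃ C : ℕ, ∀ L ∈ NEXPLang O, ∃ c : ℕ, Lᶜ ∈ WithAdvice (NEXPLang O)
        {f | ∀ n, (f n).length ≤ C * Nat.log 2 (n + 1) + c},
      ∀ N : ℕ, 1 ≤ N → ∀ L ∈ NEXPLang O, ∃ c : ℕ, Lᶜ ∈ WithAdvice (NEXPLang O)
        {f | ∀ n, (f n).length ≤ Nat.log 2 (n + 1) / N + c}] := by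
  tfae_have 1 → 3 := fun ⟨C, h⟩ => ⟨C + 1, uniformAdvice_of_queries h⟩
  tfae_have 3 → 4 := fun ⟨C, h⟩ N hN => law_log h hN
  tfae_have 4 → 2 := queries_of_smallAdvice
  tfae_have 2 → 1 := fun h => ⟨1, fun L hL => by
    obtain ⟨c, hc⟩ := h 1 le_rfl L hL
    exact ⟨c, by simpa using hc⟩⟩
  tfae_finish

end Pool.Agent.LibDual85
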